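import Mathlib

/-!
The positive integers not divisible by `m` are the `m k + (n j mod m)`.
-/

namespace SzU

theorem dsum_term (m n j k : ℕ) (hm : 2 ≤ m) (x : ℝ) (hx0 : 0 < x) :
    ((k : ℝ) + ((n * j : ℝ) / m - (n * j / m : ℕ))) *
        x ^ (2 * ((k : ℝ) + ((n * j : ℝ) / m - (n * j / m : ℕ)))) =
      1 / m * (((m * k + (n * j) % m : ℕ) : ℝ) * (x ^ (2 / (m : ℝ))) ^ (m * k + (n * j) % m)) := by
  have hm0 : (0 : ℝ) < m := by
    have : 0 < m := by omega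
    exact_mod_cast this
  have h1 : (n * j : ℝ) = m * (n * j / m : ℕ) + ((n * j) % m : ℕ) := by
    have := Nat.div_add_mod (n * j) m
    exact_mod_cast this.symm
  have h2 : (k : ℝ) + ((n * j : ℝ) / m - (n * j / m : ℕ)) =
      ((m * k + (n * j) % m : ℕ) : ℝ) / m := by
    rw [h1]
    push_cast
    field_simp
    ring
  rw [h2]
  have h3 : x ^ (2 * (((m * k + (n * j) % m : ℕ) : ℝ) / m)) =
      (x ^ (2 / (m : ℝ))) ^ (m * k + (n * j) % m) := by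
    rw [← Real.rpow_natCast (x ^ (2 / (m : ℝ))), ← Real.rpow_mul hx0.le]
    congr 1
    ring
  rw [h3]
  ring

theorem dsum_inj (m n : ℕ) (hm : 2 ≤ m) (hmn : m.Coprime n) :
    Function.Injective (fun p : (Finset.Ico 1 m) × ℕ => m * p.2 + (n * p.1.1) % m) := by
  rintro ⟨⟨j, hj⟩, k⟩ ⟨⟨j', hj'⟩, k'⟩ h
  simp only at h
  have hm0 : 0 < m := by omega
  have h1 := Nat.mod_lt (n * j) hm0
  have h2 := Nat.mod_lt (n * j') hm0
  have h3 : k = k' := by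
    have e1 : (m * k + (n * j) % m) / m = k := by
      rw [Nat.mul_add_div hm0, Nat.div_eq_of_lt h1, add_zero]
    have e2 : (m * k' + (n * j') % m) / m = k' := by
      rw [Nat.mul_add_div hm0, Nat.div_eq_of_lt h2, add_zero]
    rw [← e1, ← e2, h]
  subst h3
  have h4 : (n * j) % m = (n * j') % m := by omega
  have h5 : j ≡ j' [MOD m] := Nat.ModEq.cancel_left_of_coprime (by simpa using hmn) h4
  rw [Finset.mem_Ico] at hj hj'
  have h6 : j = j' := by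
    have := h5
    unfold Nat.ModEq at this
    rwa [Nat.mod_eq_of_lt hj.2, Nat.mod_eq_of_lt hj'.2] at this
  subst h6
  rfl

theorem dsum (m n : ℕ) (hm : 2 ≤ m) (hmn : m.Coprime n) (x : ℝ) (hx0 : 0 < x) (hx1 : x < 1)
    (hs : ∀ j ∈ Finset.Ico 1 m, Summable (fun k : ℕ =>
      ((k : ℝ) + ((n * j : ℝ) / m - (n * j / m : ℕ))) *
        x ^ (2 * ((k : ℝ) + ((n * j : ℝ) / m - (n * j / m : ℕ)))))) :
    ∑ j ∈ Finset.Ico 1 m, ∑' k : ℕ, ((k : ℝ) + ((n * j : ℝ) / m - (n * j / m : ℕ))) *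
        x ^ (2 * ((k : ℝ) + ((n * j : ℝ) / m - (n * j / m : ℕ)))) ≤
      1 / m * (x ^ (2 / (m : ℝ)) / (1 - x ^ (2 / (m : ℝ))) ^ 2) := by
  have hm0 : (0 : ℝ) < m := by
    have : 0 < m := by omega
    exact_mod_cast this
  have hy0 : 0 < x ^ (2 / (m : ℝ)) := Real.rpow_pos_of_pos hx0 _
  have hy1 : x ^ (2 / (m : ℝ)) < 1 := Real.rpow_lt_one hx0.le hx1 (by positivity)
  have hyn : ‖x ^ (2 / (m : ℝ))‖ < 1 := by
    rw [Real.norm_eq_abs, abs_of_pos hy0]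
    exact hy1
  have hg := hasSum_coe_mul_geometric_of_norm_lt_one hyn
  have hle := tsum_comp_le_tsum_of_inj hg.summable (i := fun p : (Finset.Ico 1 m) × ℕ =>
    m * p.2 + (n * p.1.1) % m) (fun N => by positivity) (dsum_inj m n hm hmn)
  have hsum := hg.summable.comp_injective (dsum_inj m n hm hmn)
  have e1 : ∑' p : (Finset.Ico 1 m) × ℕ, ((fun N : ℕ => (N : ℝ) * (x ^ (2 / (m : ℝ))) ^ N) ∘
      (fun p : (Finset.Ico 1 m) × ℕ => m * p.2 + (n * p.1.1) % m)) p =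
      ∑ j ∈ Finset.Ico 1 m, ∑' k : ℕ, ((m * k + (n * j) % m : ℕ) : ℝ) *
        (x ^ (2 / (m : ℝ))) ^ (m * k + (n * j) % m) := by
    rw [hsum.tsum_prod, tsum_fintype]
    exact Finset.sum_coe_sort (Finset.Ico 1 m) (fun j : ℕ => ∑' k : ℕ,
      ((m * k + (n * j) % m : ℕ) : ℝ) * (x ^ (2 / (m : ℝ))) ^ (m * k + (n * j) % m))
  have e2 : ∑ j ∈ Finset.Ico 1 m, ∑' k : ℕ, ((k : ℝ) + ((n * j : ℝ) / m - (n * j / m : ℕ))) *
        x ^ (2 * ((k : ℝ) + ((n * j : ℝ) / m - (n * j / m : ℕ)))) =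
      1 / m * ∑ j ∈ Finset.Ico 1 m, ∑' k : ℕ, ((m * k + (n * j) % m : ℕ) : ℝ) *
        (x ^ (2 / (m : ℝ))) ^ (m * k + (n * j) % m) := by
    rw [Finset.mul_sum]
    refine Finset.sum_congr rfl fun j _ => ?_
    rw [← tsum_mul_left]
    exact tsum_congr fun k => dsum_term m n j k hm x hx0
  rw [e2, ← e1]
  refine mul_le_mul_of_nonneg_left ?_ (by positivity)
  refine hle.trans (le_of_eq hg.tsum_eq)

end SzU
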