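import Mathlib

/-!
The holomorphic function `∏ (1 - (α_i/R) u)^(-s)` on the unit disc.
-/

open Polynomial

namespace SzU

theorem exists_pow_multiset (R : ℝ) (hR : 0 < R) (s : ℝ) (M : Multiset ℂ) :
    (∀ α ∈ M, ‖α‖ ≤ R) →
    ∃ A : ℂ → ℂ, DifferentiableOn ℂ A (Metric.ball 0 1) ∧ ∀ z : ℂ, R < ‖z‖ →
      ‖(M.map (fun α => z - α)).prod‖ ^ (-(2 * s)) =
        ‖z‖ ^ (-(2 * s * (Multiset.card M : ℕ))) * ‖A (R / z)‖ ^ 2 := by
  refine Multiset.induction_on M ?_ ?_
  · intro _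
    refine ⟨fun _ => 1, differentiableOn_const _, ?_⟩
    intro z hz
    simp
  · intro a M ih hM
    obtain ⟨A, hA, hA2⟩ := ih (fun α hα => hM α (Multiset.mem_cons_of_mem hα))
    have ha : ‖a‖ ≤ R := hM a (Multiset.mem_cons_self a M)
    refine ⟨fun u => A u * (1 - (a / R) * u) ^ ((-s : ℝ) : ℂ), ?_, ?_⟩
    · refine hA.mul ?_
      intro u hu
      have hu1 : ‖u‖ < 1 := by simpa using hu
      have h1 : ‖(a / R) * u‖ < 1 := by
        rw [norm_mul, norm_div, Complex.norm_real, Real.norm_eq_abs, abs_of_pos hR]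
        calc ‖a‖ / R * ‖u‖ ≤ 1 * ‖u‖ :=
              mul_le_mul_of_nonneg_right ((div_le_one hR).mpr ha) (norm_nonneg u)
          _ < 1 := by linarith
      have h2 : (1 - (a / R) * u) ∈ Complex.slitPlane := by
        left
        have h3 := Complex.re_le_norm ((a / R) * u)
        rw [Complex.sub_re, Complex.one_re]
        linarith
      refine DifferentiableAt.differentiableWithinAt ?_
      refine DifferentiableAt.cpow ?_ (differentiableAt_const _) h2
      fun_prop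
    · intro z hz
      have hz0 : 0 < ‖z‖ := hR.trans hz
      have hzn : z ≠ 0 := norm_pos_iff.mp hz0
      have hRc : (R : ℂ) ≠ 0 := by exact_mod_cast hR.ne'
      rw [Multiset.map_cons, Multiset.prod_cons, norm_mul,
        Real.mul_rpow (norm_nonneg _) (norm_nonneg _), hA2 z hz, norm_mul,
        Complex.norm_cpow_real, Multiset.card_cons]
      have e1 : z - a = z * (1 - (a / R) * (R / z)) := by
        field_simp
      have e2 : ‖z - a‖ ^ (-(2 * s)) = ‖z‖ ^ (-(2 * s)) *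
          (‖1 - (a / R) * (R / z)‖ ^ (-s)) ^ 2 := by
        rw [e1, norm_mul, Real.mul_rpow (norm_nonneg _) (norm_nonneg _)]
        have e4 : ‖1 - (a / R) * (R / z)‖ ^ (-(2 * s)) =
            (‖1 - (a / R) * (R / z)‖ ^ (-s)) ^ 2 := by
          rw [← Real.rpow_natCast, ← Real.rpow_mul (norm_nonneg _)]
          congr 1
          push_cast
          ring
        rw [e4]
      have e3 : ‖z‖ ^ (-(2 * s * ((Multiset.card M + 1 : ℕ) : ℝ))) =
          ‖z‖ ^ (-(2 * s)) * ‖z‖ ^ (-(2 * s * ((Multiset.card M : ℕ) : ℝ))) := by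
        rw [← Real.rpow_add hz0]
        congr 1
        push_cast
        ring
      rw [e2, e3]
      ring

theorem exists_pow (F : ℂ[X]) (hF : F.Monic) (R : ℝ) (hR : 0 < R)
    (hroots : ∀ α ∈ F.roots, ‖α‖ ≤ R) (s : ℝ) :
    ∃ A : ℂ → ℂ, DifferentiableOn ℂ A (Metric.ball 0 1) ∧ ∀ z : ℂ, R < ‖z‖ →
      ‖F.eval z‖ ^ (-(2 * s)) = ‖z‖ ^ (-(2 * s * F.natDegree)) * ‖A (R / z)‖ ^ 2 := by
  obtain ⟨A, hA, hA2⟩ := exists_pow_multiset R hR s F.roots hroots
  refine ⟨A, hA, ?_⟩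
  intro z hz
  have h1 := hA2 z hz
  have hs := IsAlgClosed.splits F
  rw [hs.eval_eq_prod_roots_of_monic hF, hs.natDegree_eq_card_roots]
  exact h1

end SzU
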