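import Pool.Agent.SzU.Bes
import Pool.Agent.SzU.Pow
import Pool.Agent.SzU.Dsum
import Pool.Agent.SzNF.Mass

/-!
Bound of the density of the canonical measure outside a disc which contains the roots, by the
Bergman kernel of the unit disc.
-/

open Polynomial MeasureTheory ComplexConjugate

namespace SzU

open SzNF

theorem wt_nonneg (m : ℕ) (F : ℂ[X]) (j : ℕ) (z : ℂ) : 0 ≤ wt m F j z :=
  Real.rpow_nonneg (norm_nonneg _) _

theorem wt_meas (m : ℕ) (F : ℂ[X]) (j : ℕ) : Measurable (wt m F j) := by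
  unfold wt
  exact (F.continuous.norm.measurable).pow_const _

/-- the square of the norm as a real integral -/
theorem norm_int (m : ℕ) (F : ℂ[X]) (j : ℕ) (P : ℂ[X]) :
    ∫ z : ℂ, P.eval z * conj (P.eval z) * (wt m F j z : ℂ) =
      ((∫ z : ℂ, ‖P.eval z‖ ^ 2 * wt m F j z : ℝ) : ℂ) := by
  have hfun : (fun z : ℂ => P.eval z * conj (P.eval z) * (wt m F j z : ℂ))
      = fun z : ℂ => ((‖P.eval z‖ ^ 2 * wt m F j z : ℝ) : ℂ) := by
    funext z
    rw [Complex.mul_conj, Complex.normSq_eq_norm_sq]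
    push_cast
    ring
  rw [hfun]
  exact integral_ofReal

theorem sq_int (m n : ℕ) (hm : 2 ≤ m) (F : ℂ[X])
    (e : (j : ℕ) → Fin (n * j / m) → ℂ[X]) (he : IsONB m n F e) (j : ℕ)
    (hj : j ∈ Finset.Ico 1 m) (k : Fin (n * j / m)) :
    Integrable (fun z : ℂ => ‖(e j k).eval z‖ ^ 2 * wt m F j z) := by
  have h1 := (he j hj).2 k k
  rw [if_pos rfl, norm_int] at h1
  have h2 : (m : ℝ) * ∫ z : ℂ, ‖(e j k).eval z‖ ^ 2 * wt m F j z = 1 := by
    exact_mod_cast h1
  by_contra hni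
  rw [integral_undef hni] at h2
  simp at h2

theorem cross_int (m n : ℕ) (hm : 2 ≤ m) (F : ℂ[X])
    (e : (j : ℕ) → Fin (n * j / m) → ℂ[X]) (he : IsONB m n F e) (j : ℕ)
    (hj : j ∈ Finset.Ico 1 m) (k l : Fin (n * j / m)) :
    Integrable (fun z : ℂ => (e j k).eval z * conj ((e j l).eval z) * (wt m F j z : ℂ)) := by
  have hk := sq_int m n hm F e he j hj k
  have hl := sq_int m n hm F e he j hj l
  refine (hk.add hl).mono' ?_ (Filter.Eventually.of_forall fun z => ?_)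
  · have h1 : Measurable fun z : ℂ => (e j k).eval z := (e j k).continuous.measurable
    have h2 : Measurable fun z : ℂ => conj ((e j l).eval z) :=
      (Complex.continuous_conj.comp (e j l).continuous).measurable
    exact ((h1.mul h2).mul (Complex.measurable_ofReal.comp (wt_meas m F j))).aestronglyMeasurable
  · rw [norm_mul, norm_mul, RCLike.norm_conj, Complex.norm_of_nonneg (wt_nonneg _ _ _ _)]
    have hw := wt_nonneg m F j z
    simp only [Pi.add_apply]
    rw [← add_mul]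
    refine mul_le_mul_of_nonneg_right ?_ hw
    nlinarith [sq_nonneg (‖(e j k).eval z‖ - ‖(e j l).eval z‖), norm_nonneg ((e j k).eval z),
      norm_nonneg ((e j l).eval z), sq_nonneg (‖(e j k).eval z‖), sq_nonneg (‖(e j l).eval z‖)]

/-- reversed polynomial -/
theorem eval_rev (P : ℂ[X]) (d : ℕ) (hd : P.degree < d) (R : ℝ) (hR : 0 < R) (z : ℂ)
    (hz : z ≠ 0) :
    P.eval z = z ^ (d - 1) * ∑ i ∈ Finset.range d, P.coeff i * (((R : ℂ) / z) / R) ^ (d - 1 - i) := by
  have h1 : P.natDegree < d ∨ P = 0 := by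
    by_cases h0 : P = 0
    · exact Or.inr h0
    · left
      rw [Polynomial.degree_eq_natDegree h0] at hd
      exact_mod_cast hd
  have h2 : P.eval z = ∑ i ∈ Finset.range d, P.coeff i * z ^ i := by
    rcases h1 with h1 | h1
    · exact Polynomial.eval_eq_sum_range' h1 z
    · rw [h1]; simp
  rw [h2, Finset.mul_sum]
  refine Finset.sum_congr rfl fun i hi => ?_
  rw [Finset.mem_range] at hi
  have h3 : ((R : ℂ) / z) / R = z⁻¹ := by
    have : (R : ℂ) ≠ 0 := by exact_mod_cast hR.ne'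
    field_simp
  have h4 : z ^ (d - 1) = z ^ i * z ^ (d - 1 - i) := by
    rw [← pow_add]; congr 1; omega
  rw [h3, h4, inv_pow]
  have : z ^ (d - 1 - i) ≠ 0 := pow_ne_zero _ hz
  field_simp

/-- the pointwise bound for one differential -/
theorem one_bound (m n : ℕ) (hm : 2 ≤ m) (F : ℂ[X]) (hF : F.Monic) (hn : F.natDegree = n)
    (hmn : m.Coprime n) (R : ℝ) (hR : 0 < R) (hroots : ∀ α ∈ F.roots, ‖α‖ ≤ R)
    (j : ℕ) (hj : j ∈ Finset.Ico 1 m) (P : ℂ[X]) (hP : P.degree < (n * j / m : ℕ)) (N : ℝ)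
    (hint : Integrable (fun z : ℂ => ‖P.eval z‖ ^ 2 * wt m F j z))
    (hN : ∫ z : ℂ, ‖P.eval z‖ ^ 2 * wt m F j z ≤ N) (z : ℂ) (hz : R < ‖z‖) :
    Summable (fun k : ℕ => ((k : ℝ) + ((n * j : ℝ) / m - (n * j / m : ℕ))) *
        (R / ‖z‖) ^ (2 * ((k : ℝ) + ((n * j : ℝ) / m - (n * j / m : ℕ))))) ∧
    ‖P.eval z‖ ^ 2 * wt m F j z ≤ N / (Real.pi * ‖z‖ ^ 2) *
      ∑' k : ℕ, ((k : ℝ) + ((n * j : ℝ) / m - (n * j / m : ℕ))) *
        (R / ‖z‖) ^ (2 * ((k : ℝ) + ((n * j : ℝ) / m - (n * j / m : ℕ)))) := by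
  have hm0 : (0 : ℝ) < m := by exact_mod_cast (by omega : 0 < m)
  rw [Finset.mem_Ico] at hj
  set d : ℕ := n * j / m with hd
  have hmod : n * j % m ≠ 0 := by
    intro h
    have h1 : m ∣ n * j := Nat.dvd_of_mod_eq_zero h
    have h2 : m ∣ j := hmn.dvd_of_dvd_mul_left h1
    have h3 := Nat.le_of_dvd (by omega) h2
    omega
  set δ : ℝ := (n * j : ℝ) / m - (d : ℕ) with hδ
  have hδ0 : 0 < δ := by
    have h1 := Nat.div_add_mod (n * j) m
    have h2 : (m : ℝ) * d + (n * j % m : ℕ) = (n * j : ℝ) := by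
      rw [hd]
      exact_mod_cast h1
    have h3 : (0 : ℝ) < (n * j % m : ℕ) := by
      exact_mod_cast Nat.pos_of_ne_zero hmod
    rw [hδ, sub_pos, lt_div_iff₀ hm0]
    linarith
  obtain ⟨A, hA, hAz⟩ := exists_pow F hF R hR hroots ((j : ℝ) / m)
  set q : ℂ → ℂ := fun u => ∑ i ∈ Finset.range d, P.coeff i * (u / R) ^ (d - 1 - i) with hq
  have hqd : Differentiable ℂ q := by
    rw [hq]
    fun_prop
  set H : ℂ → ℂ := fun u => q u * A u with hH
  have hHd : DifferentiableOn ℂ H (Metric.ball 0 1) := hqd.differentiableOn.mul hA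
  have hd1 : P ≠ 0 → 1 ≤ d := by
    intro hP0
    rw [Polynomial.degree_eq_natDegree hP0] at hP
    have : P.natDegree < d := by exact_mod_cast hP
    omega
  have key : ∀ w : ℂ, R < ‖w‖ → ‖P.eval w‖ ^ 2 * wt m F j w =
      ‖w‖ ^ (-(2 + 2 * δ)) * ‖H (R / w)‖ ^ 2 := by
    intro w hw
    have hw0 : w ≠ 0 := by
      intro h; rw [h, norm_zero] at hw; linarith
    have hwn : 0 < ‖w‖ := norm_pos_iff.2 hw0
    by_cases hP0 : P = 0
    · have : q (R / w) = 0 := by
        rw [hq]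
        simp [hP0]
      rw [hH]
      simp only [this]
      simp [hP0]
    have h1 := eval_rev P d hP R hR w hw0
    have h2 : P.eval w = w ^ (d - 1) * q (R / w) := h1
    have h3 : wt m F j w = ‖w‖ ^ (-(2 * ((j : ℝ) / m) * n)) * ‖A (R / w)‖ ^ 2 := by
      unfold wt
      rw [← hn, ← hAz w hw]
      congr 1
      ring
    rw [h2, h3, hH, norm_mul, norm_pow]
    simp only
    rw [norm_mul]
    have h4 : (‖w‖ ^ (d - 1)) ^ 2 * ‖w‖ ^ (-(2 * ((j : ℝ) / m) * n)) = ‖w‖ ^ (-(2 + 2 * δ)) := by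
      rw [← pow_mul, ← Real.rpow_natCast, ← Real.rpow_add hwn]
      congr 1
      have hd1' := hd1 hP0
      push_cast [Nat.cast_sub hd1']
      rw [hδ]
      field_simp
      ring
    rw [← h4]
    ring
  have hmeas : MeasurableSet {z : ℂ | R < ‖z‖} := measurableSet_lt measurable_const measurable_norm
  have hi1 : IntegrableOn (fun z : ℂ => ‖z‖ ^ (-(2 + 2 * δ)) * ‖H (R / z)‖ ^ 2) {z | R < ‖z‖} := by
    refine (hint.integrableOn (s := {z : ℂ | R < ‖z‖})).congr_fun ?_ hmeas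
    intro w hw
    exact key w hw
  have hi2 : ∫ z in {z : ℂ | R < ‖z‖}, ‖z‖ ^ (-(2 + 2 * δ)) * ‖H (R / z)‖ ^ 2 ≤ N := by
    have h1 : ∫ z in {z : ℂ | R < ‖z‖}, ‖z‖ ^ (-(2 + 2 * δ)) * ‖H (R / z)‖ ^ 2 =
        ∫ z in {z : ℂ | R < ‖z‖}, ‖P.eval z‖ ^ 2 * wt m F j z := by
      refine setIntegral_congr_fun hmeas ?_
      intro w hw
      exact (key w hw).symm
    rw [h1]
    refine le_trans (setIntegral_le_integral hint (Filter.Eventually.of_forall fun w => ?_)) hN
    exact mul_nonneg (by positivity) (wt_nonneg _ _ _ _)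
  obtain ⟨hs, hb⟩ := bes H hHd δ R N hδ0 hR hi1 hi2 z hz
  refine ⟨hs, ?_⟩
  rw [key z hz]
  exact hb

/-- the sum over an orthonormal basis -/
theorem sum_bound (m n : ℕ) (hm : 2 ≤ m) (F : ℂ[X]) (hF : F.Monic) (hn : F.natDegree = n)
    (hmn : m.Coprime n) (e : (j : ℕ) → Fin (n * j / m) → ℂ[X]) (he : IsONB m n F e)
    (R : ℝ) (hR : 0 < R) (hroots : ∀ α ∈ F.roots, ‖α‖ ≤ R)
    (j : ℕ) (hj : j ∈ Finset.Ico 1 m) (z : ℂ) (hz : R < ‖z‖) :
    ∑ k, ‖(e j k).eval z‖ ^ 2 * wt m F j z ≤ (1 / m) / (Real.pi * ‖z‖ ^ 2) *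
      ∑' k : ℕ, ((k : ℝ) + ((n * j : ℝ) / m - (n * j / m : ℕ))) *
        (R / ‖z‖) ^ (2 * ((k : ℝ) + ((n * j : ℝ) / m - (n * j / m : ℕ)))) := by
  have hm0 : (0 : ℝ) < m := by exact_mod_cast (by omega : 0 < m)
  obtain ⟨hdeg, hon⟩ := he j hj
  set T : ℝ := ∑ k, ‖(e j k).eval z‖ ^ 2 with hT
  have hT0 : 0 ≤ T := Finset.sum_nonneg fun k _ => by positivity
  set P : ℂ[X] := ∑ k, C (conj ((e j k).eval z)) * e j k with hP
  have hPdeg : P.degree < (n * j / m : ℕ) := by
    rw [hP]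
    refine lt_of_le_of_lt (degree_sum_le _ _) ?_
    rw [Finset.sup_lt_iff]
    · intro k _
      rw [← smul_eq_C_mul]
      exact lt_of_le_of_lt (degree_smul_le _ _) (hdeg k)
    · exact WithBot.bot_lt_coe _
  have hPz : P.eval z = (T : ℂ) := by
    rw [hP, hT, eval_finsetSum]
    push_cast
    refine Finset.sum_congr rfl fun k _ => ?_
    rw [eval_mul, eval_C, mul_comm, Complex.mul_conj, Complex.normSq_eq_norm_sq]
    push_cast
    ring
  have hPw : ∀ w : ℂ, P.eval w * conj (P.eval w) * (wt m F j w : ℂ) =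
      ∑ k, ∑ l, conj ((e j k).eval z) * (e j l).eval z *
        ((e j k).eval w * conj ((e j l).eval w) * (wt m F j w : ℂ)) := by
    intro w
    have h1 : P.eval w = ∑ k, conj ((e j k).eval z) * (e j k).eval w := by
      rw [hP, eval_finsetSum]
      refine Finset.sum_congr rfl fun k _ => ?_
      rw [eval_mul, eval_C]
    have h2 : conj (P.eval w) = ∑ l, (e j l).eval z * conj ((e j l).eval w) := by
      rw [h1, map_sum]
      refine Finset.sum_congr rfl fun k _ => ?_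
      rw [map_mul, Complex.conj_conj]
    rw [h2, h1, Finset.sum_mul_sum, Finset.sum_mul]
    refine Finset.sum_congr rfl fun k _ => ?_
    rw [Finset.sum_mul]
    refine Finset.sum_congr rfl fun l _ => ?_
    ring
  have hcr := cross_int m n hm F e he j hj
  have hPint : ∫ w : ℂ, P.eval w * conj (P.eval w) * (wt m F j w : ℂ) = ((T / m : ℝ) : ℂ) := by
    simp_rw [hPw]
    rw [integral_finsetSum _ (fun k _ => integrable_finsetSum _ fun l _ => (hcr k l).const_mul _)]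
    have h3 : ∀ k, ∫ w : ℂ, ∑ l, conj ((e j k).eval z) * (e j l).eval z *
        ((e j k).eval w * conj ((e j l).eval w) * (wt m F j w : ℂ)) =
        ((‖(e j k).eval z‖ ^ 2 / m : ℝ) : ℂ) := by
      intro k
      rw [integral_finsetSum _ (fun l _ => (hcr k l).const_mul _)]
      have h4 : ∀ l, ∫ w : ℂ, conj ((e j k).eval z) * (e j l).eval z *
          ((e j k).eval w * conj ((e j l).eval w) * (wt m F j w : ℂ)) =
          if k = l then ((‖(e j k).eval z‖ ^ 2 / m : ℝ) : ℂ) else 0 := by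
        intro l
        rw [integral_const_mul]
        have h5 := hon k l
        have h6 : (∫ w : ℂ, (e j k).eval w * conj ((e j l).eval w) * (wt m F j w : ℂ)) =
            (if k = l then 1 else 0) / m := by
          rw [eq_div_iff (by exact_mod_cast hm0.ne'), mul_comm]
          exact h5
        rw [h6]
        split_ifs with hkl
        · rw [← hkl, mul_comm (conj _), Complex.mul_conj, Complex.normSq_eq_norm_sq]
          push_cast
          ring
        · simp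
      simp_rw [h4]
      rw [Finset.sum_ite_eq]
      simp
    simp_rw [h3]
    rw [hT]
    push_cast
    rw [Finset.sum_div]
  have hPreal : ∫ w : ℂ, ‖P.eval w‖ ^ 2 * wt m F j w = T / m := by
    have h1 := norm_int m F j P
    rw [hPint] at h1
    exact_mod_cast h1.symm
  have hPI : Integrable (fun w : ℂ => ‖P.eval w‖ ^ 2 * wt m F j w) := by
    have h1 : Integrable (fun w : ℂ => ∑ k, ∑ l, conj ((e j k).eval z) * (e j l).eval z *
        ((e j k).eval w * conj ((e j l).eval w) * (wt m F j w : ℂ))) :=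
      integrable_finsetSum _ (fun k _ => integrable_finsetSum _ fun l _ => (hcr k l).const_mul _)
    have h2 := h1.norm
    refine h2.congr (Filter.Eventually.of_forall fun w => ?_)
    simp only
    rw [← hPw w, Complex.mul_conj, Complex.normSq_eq_norm_sq, ← Complex.ofReal_mul,
      Complex.norm_of_nonneg (mul_nonneg (by positivity) (wt_nonneg _ _ _ _))]
  obtain ⟨hs, hb⟩ := one_bound m n hm F hF hn hmn R hR hroots j hj P hPdeg (T / m) hPI
    (le_of_eq hPreal) z hz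
  rw [hPz, Complex.norm_of_nonneg hT0] at hb
  set S : ℝ := ∑' k : ℕ, ((k : ℝ) + ((n * j : ℝ) / m - (n * j / m : ℕ))) *
        (R / ‖z‖) ^ (2 * ((k : ℝ) + ((n * j : ℝ) / m - (n * j / m : ℕ)))) with hS
  rw [← Finset.sum_mul, ← hT]
  have hzn : 0 < ‖z‖ := hR.trans hz
  rcases hT0.eq_or_lt with h0 | h0
  · rw [← h0, zero_mul]
    have hδ : 0 ≤ (n * j : ℝ) / m - (n * j / m : ℕ) := by
      have h1 : ((n * j / m : ℕ) : ℝ) ≤ ((n * j : ℕ) : ℝ) / m := Nat.cast_div_le
      push_cast at h1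
      linarith
    have : 0 ≤ S := tsum_nonneg fun k => by positivity
    positivity
  · have h1 : T * (T * wt m F j z) ≤ T * ((1 / m) / (Real.pi * ‖z‖ ^ 2) * S) := by
      calc T * (T * wt m F j z) = T ^ 2 * wt m F j z := by ring
        _ ≤ T / m / (Real.pi * ‖z‖ ^ 2) * S := hb
        _ = _ := by ring
    exact le_of_mul_le_mul_left h1 h0

/-- The bound of the density. -/
theorem rho_berg (m n : ℕ) (hm : 2 ≤ m) (F : ℂ[X]) (hF : F.Monic) (hn : F.natDegree = n)
    (hmn : m.Coprime n) (hg : 1 ≤ genus m n)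
    (e : (j : ℕ) → Fin (n * j / m) → ℂ[X]) (he : IsONB m n F e)
    (R : ℝ) (hR : 0 < R) (hroots : ∀ α ∈ F.roots, ‖α‖ ≤ R) (z : ℂ) (hz : R < ‖z‖) :
    rho m n F e z ≤ (1 / genus m n) * (1 / (Real.pi * m * ‖z‖ ^ 2) *
      ((‖z‖ / R) ^ (-(2 / (m : ℝ))) / (1 - (‖z‖ / R) ^ (-(2 / (m : ℝ)))) ^ 2)) := by
  have hm0 : (0 : ℝ) < m := by exact_mod_cast (by omega : 0 < m)
  have hg0 : (0 : ℝ) < genus m n := by exact_mod_cast hg
  have hzn : 0 < ‖z‖ := hR.trans hz
  have hx0 : 0 < R / ‖z‖ := div_pos hR hzn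
  have hx1 : R / ‖z‖ < 1 := by rwa [div_lt_one hzn]
  unfold rho
  have h1 : ∀ j ∈ Finset.Ico 1 m, Summable (fun k : ℕ =>
      ((k : ℝ) + ((n * j : ℝ) / m - (n * j / m : ℕ))) *
        (R / ‖z‖) ^ (2 * ((k : ℝ) + ((n * j : ℝ) / m - (n * j / m : ℕ))))) := by
    intro j hj
    refine (one_bound m n hm F hF hn hmn R hR hroots j hj 0 ?_ 0 ?_ ?_ z hz).1
    · rw [degree_zero]; exact WithBot.bot_lt_coe _
    · simp
    · simp
  have h2 := dsum m n hm hmn (R / ‖z‖) hx0 hx1 h1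
  have h3 : ∑ j ∈ Finset.Ico 1 m, ∑ k, ‖(e j k).eval z‖ ^ 2 * wt m F j z ≤
      (1 / m) / (Real.pi * ‖z‖ ^ 2) * (1 / m * ((R / ‖z‖) ^ (2 / (m : ℝ)) /
        (1 - (R / ‖z‖) ^ (2 / (m : ℝ))) ^ 2)) := by
    refine (Finset.sum_le_sum fun j hj => sum_bound m n hm F hF hn hmn e he R hR hroots j hj z
      hz).trans ?_
    rw [← Finset.mul_sum]
    exact mul_le_mul_of_nonneg_left h2 (by positivity)
  have h4 : (‖z‖ / R) ^ (-(2 / (m : ℝ))) = (R / ‖z‖) ^ (2 / (m : ℝ)) := by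
    rw [Real.rpow_neg (by positivity), ← Real.inv_rpow (by positivity), inv_div]
  rw [h4]
  have h5 := mul_le_mul_of_nonneg_left h3 (by positivity : 0 ≤ (m : ℝ) / genus m n)
  refine h5.trans (le_of_eq ?_)
  field_simp

end SzU
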