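import Mathlib

/-!
Pointwise bound for a holomorphic function on the unit disc by a weighted `L^2` norm. If
`H = ∑ h_k u^k`, the monomials are orthogonal on circles, so by Bessel on the circles
`∑ |h_k|^2 π R^(-2δ) / (k+δ) ≤ N`, and Cauchy-Schwarz gives the bound.
-/

open MeasureTheory

namespace SzU

/-- the functions `H_k` with `H_k = h_k + u H_(k+1)` -/
private noncomputable def besH (H : ℂ → ℂ) (k : ℕ) : ℂ → ℂ := (Function.swap dslope 0)^[k] H

private theorem besH_succ (H : ℂ → ℂ) (k : ℕ) : besH H (k + 1) = dslope (besH H k) 0 := by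
  unfold besH
  rw [Function.iterate_succ_apply']

private theorem besH_diff (H : ℂ → ℂ) (hH : DifferentiableOn ℂ H (Metric.ball 0 1)) (k : ℕ) :
    DifferentiableOn ℂ (besH H k) (Metric.ball 0 1) := by
  induction k with
  | zero => exact hH
  | succ k ih =>
    rw [besH_succ]
    exact (Complex.differentiableOn_dslope (Metric.ball_mem_nhds _ one_pos)).mpr ih

private theorem besH_step (H : ℂ → ℂ) (k : ℕ) (u : ℂ) :
    besH H k u = besH H k 0 + u * besH H (k + 1) u := by
  have h := sub_smul_dslope (besH H k) 0 u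
  rw [sub_zero, smul_eq_mul] at h
  rw [besH_succ, h]
  ring

private theorem bes_ci (G : ℂ → ℂ) (hG : DifferentiableOn ℂ G (Metric.ball 0 1)) {r : ℝ}
    (hr0 : 0 < r) (hr : r < 1) : CircleIntegrable (fun u => ‖G u‖ ^ 2) 0 r := by
  apply ContinuousOn.circleIntegrable hr0.le
  refine ((hG.continuousOn.mono ?_).norm).pow 2
  intro z hz
  rw [mem_sphere_zero_iff_norm] at hz
  rw [mem_ball_zero_iff, hz]
  exact hr

private theorem besH_avg (H : ℂ → ℂ) (hH : DifferentiableOn ℂ H (Metric.ball 0 1)) (k : ℕ) {r : ℝ}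
    (hr0 : 0 < r) (hr : r < 1) :
    Real.circleAverage (fun u => ‖besH H k u‖ ^ 2) 0 r = ‖besH H k 0‖ ^ 2 +
      r ^ 2 * Real.circleAverage (fun u => ‖besH H (k + 1) u‖ ^ 2) 0 r := by
  set a := besH H k 0 with ha
  set g := besH H (k + 1) with hg
  have hgd : DifferentiableOn ℂ g (Metric.ball 0 1) := besH_diff H hH (k + 1)
  let G : ℂ → ℂ := fun u => (starRingEnd ℂ) a * (u * g u)
  have hGd : DifferentiableOn ℂ G (Metric.ball 0 1) :=
    (differentiableOn_id.mul hgd).const_mul _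
  have hsub : Metric.closedBall (0 : ℂ) r ⊆ Metric.ball 0 1 := Metric.closedBall_subset_ball hr
  have hsph : Metric.sphere (0 : ℂ) r ⊆ Metric.ball 0 1 :=
    Metric.sphere_subset_closedBall.trans hsub
  have hGci : CircleIntegrable G 0 r :=
    ContinuousOn.circleIntegrable hr0.le (hGd.continuousOn.mono hsph)
  have hG0 : Real.circleAverage G 0 r = 0 := by
    have h1 : DiffContOnCl ℂ G (Metric.ball 0 |r|) := by
      rw [abs_of_pos hr0]
      refine DifferentiableOn.diffContOnCl ?_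
      exact hGd.mono (Metric.closure_ball_subset_closedBall.trans hsub)
    rw [h1.circleAverage]
    simp [G]
  have hGre : Real.circleAverage (Complex.reCLM ∘ G) 0 r = 0 := by
    rw [Complex.reCLM.circleAverage_comp_comm hGci, hG0, map_zero]
  have hci1 : CircleIntegrable (fun u => ‖g u‖ ^ 2) 0 r := bes_ci g hgd hr0 hr
  have hci2 : CircleIntegrable (Complex.reCLM ∘ G) 0 r := by
    apply ContinuousOn.circleIntegrable hr0.le
    exact Complex.reCLM.continuous.comp_continuousOn (hGd.continuousOn.mono hsph)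
  have hpt : Set.EqOn (fun u => ‖besH H k u‖ ^ 2)
      (fun u => ‖a‖ ^ 2 + (r ^ 2 * ‖g u‖ ^ 2 + 2 * (Complex.reCLM ∘ G) u))
      (Metric.sphere 0 |r|) := by
    intro u hu
    rw [abs_of_pos hr0, mem_sphere_zero_iff_norm] at hu
    simp only [Function.comp_apply, Complex.reCLM_apply, G]
    rw [besH_step H k u, ← ha, ← hg, ← Complex.normSq_eq_norm_sq, Complex.normSq_add,
      Complex.normSq_eq_norm_sq, Complex.normSq_eq_norm_sq, norm_mul, hu, mul_pow]
    have e : (a * (starRingEnd ℂ) (u * g u)).re = ((starRingEnd ℂ) a * (u * g u)).re := by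
      rw [← Complex.conj_re]
      congr 1
      rw [map_mul, Complex.conj_conj]
    rw [e]
    ring
  have c1 : Real.circleAverage (fun u => r ^ 2 * ‖g u‖ ^ 2) 0 r =
      r ^ 2 * Real.circleAverage (fun u => ‖g u‖ ^ 2) 0 r := by
    have := Real.circleAverage_fun_smul (𝕜 := ℝ) (a := r ^ 2) (f := fun u => ‖g u‖ ^ 2) (c := 0)
      (R := r)
    simpa [smul_eq_mul] using this
  have c2 : Real.circleAverage (fun u => 2 * (Complex.reCLM ∘ G) u) 0 r = 0 := by
    have := Real.circleAverage_fun_smul (𝕜 := ℝ) (a := (2 : ℝ)) (f := Complex.reCLM ∘ G) (c := 0)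
      (R := r)
    rw [hGre, smul_zero] at this
    simpa [smul_eq_mul] using this
  have i1 : CircleIntegrable (fun u => r ^ 2 * ‖g u‖ ^ 2) 0 r := by
    have := hci1.const_fun_smul (a := r ^ 2)
    simpa [smul_eq_mul] using this
  have i2 : CircleIntegrable (fun u => 2 * (Complex.reCLM ∘ G) u) 0 r := by
    have := hci2.const_fun_smul (a := (2 : ℝ))
    simpa [smul_eq_mul] using this
  rw [Real.circleAverage_congr_sphere hpt,
    Real.circleAverage_fun_add (circleIntegrable_const _ _ _) (i1.fun_add i2),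
    Real.circleAverage_fun_add i1 i2, c1, c2, Real.circleAverage_const, add_zero]

private theorem bes_circle (H : ℂ → ℂ) (hH : DifferentiableOn ℂ H (Metric.ball 0 1)) (K : ℕ)
    {r : ℝ} (hr0 : 0 < r) (hr : r < 1) :
    ∑ k ∈ Finset.range K, ‖besH H k 0‖ ^ 2 * r ^ (2 * k) ≤
      Real.circleAverage (fun u => ‖H u‖ ^ 2) 0 r := by
  have h : ∀ K : ℕ, Real.circleAverage (fun u => ‖H u‖ ^ 2) 0 r =
      ∑ k ∈ Finset.range K, ‖besH H k 0‖ ^ 2 * r ^ (2 * k) +
        r ^ (2 * K) * Real.circleAverage (fun u => ‖besH H K u‖ ^ 2) 0 r := by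
    intro K
    induction K with
    | zero => simp [besH]
    | succ K ih =>
      rw [ih, Finset.sum_range_succ, besH_avg H hH K hr0 hr]
      ring
  rw [h K]
  have h0 : 0 ≤ Real.circleAverage (fun u => ‖besH H K u‖ ^ 2) 0 r :=
    Real.circleAverage_nonneg_of_nonneg fun u _ => by positivity
  have : 0 ≤ r ^ (2 * K) * Real.circleAverage (fun u => ‖besH H K u‖ ^ 2) 0 r := by positivity
  linarith

private theorem bes_hasSum (H : ℂ → ℂ) (hH : DifferentiableOn ℂ H (Metric.ball 0 1)) (u : ℂ)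
    (hu : ‖u‖ < 1) : HasSum (fun k : ℕ => u ^ k * besH H k 0) (H u) := by
  obtain ⟨r, hr1, hr2⟩ := exists_between hu
  have hr0 : 0 < r := lt_of_le_of_lt (norm_nonneg _) hr1
  let r' : NNReal := ⟨r, hr0.le⟩
  have hd : DifferentiableOn ℂ H (Metric.closedBall 0 (r' : ℝ)) :=
    hH.mono (Metric.closedBall_subset_ball hr2)
  have hp := hd.hasFPowerSeriesOnBall (R := r') (by exact_mod_cast hr0)
  have hcoef : ∀ k, (cauchyPowerSeries H 0 (r' : ℝ)).coeff k = besH H k 0 := by
    intro k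
    have h1 := HasFPowerSeriesAt.has_fpower_series_iterate_dslope_fslope k hp.hasFPowerSeriesAt
    have h2 := h1.coeff_zero 1
    have h3 : ((FormalMultilinearSeries.fslope^[k] (cauchyPowerSeries H 0 (r' : ℝ))).coeff 0) =
        besH H k 0 := h2
    rw [FormalMultilinearSeries.coeff_iterate_fslope, zero_add] at h3
    exact h3
  have hmem : u ∈ Metric.eball (0 : ℂ) (r' : ENNReal) := by
    rw [Metric.eball_coe, mem_ball_zero_iff]
    exact hr1
  have hs := hp.hasSum hmem
  rw [zero_add] at hs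
  refine hs.congr_fun ?_
  intro k
  rw [FormalMultilinearSeries.apply_eq_pow_smul_coeff, hcoef, smul_eq_mul]

/-- the integral over the angle, as a circle average -/
private theorem bes_angle (f : ℂ → ℝ) (R s : ℝ) (hs : s ≠ 0) :
    ∫ θ in Set.Ioo (-Real.pi) Real.pi, f (R / Complex.polarCoord.symm (s, θ)) =
      2 * Real.pi * Real.circleAverage f 0 (R / s) := by
  have hpi := Real.pi_pos
  have e1 : ∀ θ : ℝ, (R : ℂ) / Complex.polarCoord.symm (s, θ) = circleMap 0 (R / s) (-θ) := by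
    intro θ
    rw [Complex.polarCoord_symm_apply, circleMap_zero]
    have h1 : ((Real.cos θ : ℝ) : ℂ) + ((Real.sin θ : ℝ) : ℂ) * Complex.I =
        Complex.exp (θ * Complex.I) := by
      rw [Complex.exp_mul_I, Complex.ofReal_cos, Complex.ofReal_sin]
    simp only
    rw [h1]
    push_cast
    have h2 : Complex.exp (-(θ : ℂ) * Complex.I) = (Complex.exp (θ * Complex.I))⁻¹ := by
      rw [← Complex.exp_neg]
      congr 1
      ring
    rw [h2]
    have h3 := Complex.exp_ne_zero (θ * Complex.I)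
    have hs' : (s : ℂ) ≠ 0 := by exact_mod_cast hs
    field_simp
  have e2 : Real.circleAverage f 0 (R / s) =
      (2 * Real.pi)⁻¹ • ∫ θ in (-Real.pi)..Real.pi, f (circleMap 0 (R / s) θ) := by
    rw [Real.circleAverage_eq_integral_add (-Real.pi),
      intervalIntegral.integral_comp_add_right (fun θ => f (circleMap 0 (R / s) θ))]
    congr 2
    · ring
    · ring
  have e3 : ∫ θ in (-Real.pi)..Real.pi, f (circleMap 0 (R / s) (-θ)) =
      ∫ θ in (-Real.pi)..Real.pi, f (circleMap 0 (R / s) θ) := by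
    have := intervalIntegral.integral_comp_neg (a := -Real.pi) (b := Real.pi)
      (fun θ => f (circleMap 0 (R / s) θ))
    rw [neg_neg] at this
    exact this
  rw [e2, ← e3, intervalIntegral.integral_of_le (by linarith), integral_Ioc_eq_integral_Ioo]
  simp only [e1, smul_eq_mul]
  field_simp

private theorem bes_cont (H : ℂ → ℂ) (hH : DifferentiableOn ℂ H (Metric.ball 0 1)) (δ R : ℝ)
    (hR : 0 < R) : ContinuousOn (fun z : ℂ => ‖z‖ ^ (-(2 + 2 * δ)) * ‖H (R / z)‖ ^ 2)
      {z | R < ‖z‖} := by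
  have hne : ∀ z ∈ {z : ℂ | R < ‖z‖}, z ≠ 0 := by
    intro z hz h0
    rw [h0] at hz
    simp only [Set.mem_ofPred_eq, norm_zero] at hz
    linarith
  refine ContinuousOn.mul ?_ (ContinuousOn.pow (ContinuousOn.norm ?_) 2)
  · refine ContinuousOn.rpow_const continuous_norm.continuousOn fun z hz => Or.inl ?_
    exact norm_ne_zero_iff.mpr (hne z hz)
  · refine hH.continuousOn.comp (ContinuousOn.div continuousOn_const continuousOn_id hne) ?_
    intro z hz
    rw [mem_ball_zero_iff, norm_div, Complex.norm_real, Real.norm_eq_abs, abs_of_pos hR]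
    exact (div_lt_one (hR.trans hz)).mpr hz

/-- Bessel for the area integral -/
private theorem bes_area (H : ℂ → ℂ) (hH : DifferentiableOn ℂ H (Metric.ball 0 1)) (δ R N : ℝ)
    (hδ : 0 < δ) (hR : 0 < R)
    (hint : IntegrableOn (fun z : ℂ => ‖z‖ ^ (-(2 + 2 * δ)) * ‖H (R / z)‖ ^ 2) {z | R < ‖z‖})
    (hN : ∫ z in {z : ℂ | R < ‖z‖}, ‖z‖ ^ (-(2 + 2 * δ)) * ‖H (R / z)‖ ^ 2 ≤ N) (K : ℕ) :
    ∑ k ∈ Finset.range K, ‖besH H k 0‖ ^ 2 * (Real.pi * R ^ (-(2 * δ)) / (k + δ)) ≤ N := by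
  classical
  set F : ℂ → ℝ := fun z => ‖z‖ ^ (-(2 + 2 * δ)) * ‖H (R / z)‖ ^ 2 with hF
  set S : Set ℂ := {z | R < ‖z‖} with hS
  have hSo : IsOpen S := isOpen_lt continuous_const continuous_norm
  have hF0 : ∀ z, 0 ≤ F z := fun z => by positivity
  have hN0 : 0 ≤ N := (integral_nonneg hF0).trans hN
  set g : ℂ → ENNReal := S.indicator (fun z => ENNReal.ofReal (F z)) with hg
  have hgm : Measurable g := by
    have h1 : ContinuousOn (fun z => ENNReal.ofReal (F z)) S :=
      ENNReal.continuous_ofReal.comp_continuousOn (bes_cont H hH δ R hR)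
    have h2 := h1.measurable_piecewise (g := fun _ => (0 : ENNReal)) continuousOn_const
      hSo.measurableSet
    have h3 : S.piecewise (fun z => ENNReal.ofReal (F z)) (fun _ => (0 : ENNReal)) = g := by
      rw [hg]
      funext z
      simp [Set.piecewise, Set.indicator]
    rwa [h3] at h2
  -- the left side as an integral over the radius
  set B : ℝ → ℝ := fun s => s ^ (-(1 + 2 * δ)) *
    (2 * Real.pi * ∑ k ∈ Finset.range K, ‖besH H k 0‖ ^ 2 * (R / s) ^ (2 * k)) with hB
  have hBk : ∀ k : ℕ, ∀ s ∈ Set.Ioi R, s ^ (-(1 + 2 * δ)) *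
      (2 * Real.pi * (‖besH H k 0‖ ^ 2 * (R / s) ^ (2 * k))) =
      (2 * Real.pi * ‖besH H k 0‖ ^ 2 * R ^ (2 * k)) * s ^ (-(1 + 2 * δ + 2 * k)) := by
    intro k s hs
    have hs0 : 0 < s := hR.trans hs
    have e1 : s ^ (-(1 + 2 * δ + 2 * (k : ℝ))) = s ^ (-(1 + 2 * δ)) * (s ^ (2 * k))⁻¹ := by
      rw [← Real.rpow_natCast s (2 * k), ← Real.rpow_neg hs0.le, ← Real.rpow_add hs0]
      congr 1
      push_cast
      ring
    rw [e1, div_pow]
    field_simp
  have hBs : ∀ s ∈ Set.Ioi R, B s = ∑ k ∈ Finset.range K,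
      (2 * Real.pi * ‖besH H k 0‖ ^ 2 * R ^ (2 * k)) * s ^ (-(1 + 2 * δ + 2 * k)) := by
    intro s hs
    rw [hB]
    simp only
    rw [Finset.mul_sum, Finset.mul_sum]
    exact Finset.sum_congr rfl fun k _ => hBk k s hs
  have hlt : ∀ k : ℕ, -(1 + 2 * δ + 2 * (k : ℝ)) < -1 := by
    intro k
    have : (0 : ℝ) ≤ k := k.cast_nonneg
    linarith
  have hik : ∀ k : ℕ, IntegrableOn (fun s : ℝ => (2 * Real.pi * ‖besH H k 0‖ ^ 2 * R ^ (2 * k)) *
      s ^ (-(1 + 2 * δ + 2 * (k : ℝ)))) (Set.Ioi R) := fun k =>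
    (integrableOn_Ioi_rpow_of_lt (hlt k) hR).const_mul _
  have hBint : IntegrableOn B (Set.Ioi R) := by
    have h1 : IntegrableOn (fun s : ℝ => ∑ k ∈ Finset.range K,
        (2 * Real.pi * ‖besH H k 0‖ ^ 2 * R ^ (2 * k)) * s ^ (-(1 + 2 * δ + 2 * (k : ℝ))))
        (Set.Ioi R) := integrable_finsetSum _ fun k _ => hik k
    exact h1.congr_fun (fun s hs => (hBs s hs).symm) measurableSet_Ioi
  have hBval : ∫ s in Set.Ioi R, B s =
      ∑ k ∈ Finset.range K, ‖besH H k 0‖ ^ 2 * (Real.pi * R ^ (-(2 * δ)) / (k + δ)) := by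
    rw [setIntegral_congr_fun measurableSet_Ioi hBs, integral_finsetSum _ fun k _ => hik k]
    refine Finset.sum_congr rfl fun k _ => ?_
    rw [integral_const_mul, integral_Ioi_rpow_of_lt (hlt k) hR]
    have hkδ : (0 : ℝ) < k + δ := by
      have : (0 : ℝ) ≤ k := k.cast_nonneg
      linarith
    have e1 : R ^ (-(1 + 2 * δ + 2 * (k : ℝ)) + 1) = R ^ (-(2 * δ)) * (R ^ (2 * k))⁻¹ := by
      rw [← Real.rpow_natCast R (2 * k), ← Real.rpow_neg hR.le, ← Real.rpow_add hR]
      congr 1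
      push_cast
      ring
    rw [e1]
    have e2 : -(1 + 2 * δ + 2 * (k : ℝ)) + 1 = -(2 * (k + δ)) := by ring
    rw [e2]
    have hR2 : R ^ (2 * k) ≠ 0 := pow_ne_zero _ hR.ne'
    field_simp
  have hB0 : ∀ s ∈ Set.Ioi R, 0 ≤ B s := by
    intro s hs
    have hs0 : 0 < s := hR.trans hs
    rw [hB]
    positivity
  -- the angular integrals
  have hang : ∀ s ∈ Set.Ioi R, ENNReal.ofReal (B s) ≤
      ∫⁻ θ in Set.Ioo (-Real.pi) Real.pi,
        ENNReal.ofReal s • g (Complex.polarCoord.symm (s, θ)) := by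
    intro s hs
    have hs0 : 0 < s := hR.trans hs
    have hrs : R / s < 1 := (div_lt_one hs0).mpr hs
    have hrs0 : 0 < R / s := by positivity
    have hnorm : ∀ θ : ℝ, ‖Complex.polarCoord.symm (s, θ)‖ = s := by
      intro θ
      rw [Complex.norm_polarCoord_symm]
      exact abs_of_pos hs0
    have hmem : ∀ θ : ℝ, Complex.polarCoord.symm (s, θ) ∈ S := by
      intro θ
      rw [hS, Set.mem_ofPred_eq, hnorm]
      exact hs
    have e1 : ∀ θ : ℝ, ENNReal.ofReal s • g (Complex.polarCoord.symm (s, θ)) =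
        ENNReal.ofReal (s ^ (-(1 + 2 * δ)) * ‖H (R / Complex.polarCoord.symm (s, θ))‖ ^ 2) := by
      intro θ
      rw [hg, Set.indicator_of_mem (hmem θ), smul_eq_mul, ← ENNReal.ofReal_mul hs0.le, hF]
      simp only
      rw [hnorm]
      congr 1
      have : s ^ (-(1 + 2 * δ)) = s * s ^ (-(2 + 2 * δ)) := by
        nth_rewrite 2 [← Real.rpow_one s]
        rw [← Real.rpow_add hs0]
        congr 1
        ring
      rw [this]
      ring
    simp_rw [e1]
    have hcont : Continuous (fun θ : ℝ => ‖H (R / Complex.polarCoord.symm (s, θ))‖ ^ 2) := by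
      refine (Continuous.norm ?_).pow 2
      have h1 : Continuous (fun θ : ℝ => (R : ℂ) / Complex.polarCoord.symm (s, θ)) := by
        refine continuous_const.div ?_ fun θ h0 => ?_
        · simp only [Complex.polarCoord_symm_apply]
          fun_prop
        · have := hnorm θ
          rw [h0, norm_zero] at this
          linarith
      refine hH.continuousOn.comp_continuous h1 fun θ => ?_
      rw [mem_ball_zero_iff, norm_div, hnorm, Complex.norm_real, Real.norm_eq_abs, abs_of_pos hR]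
      exact hrs
    have hii : IntegrableOn (fun θ : ℝ => s ^ (-(1 + 2 * δ)) *
        ‖H (R / Complex.polarCoord.symm (s, θ))‖ ^ 2) (Set.Ioo (-Real.pi) Real.pi) :=
      ((continuous_const.mul hcont).continuousOn.integrableOn_compact
        (isCompact_Icc (a := -Real.pi) (b := Real.pi))).mono_set Set.Ioo_subset_Icc_self
    rw [← ofReal_integral_eq_lintegral_ofReal hii
      (Filter.Eventually.of_forall fun θ => by positivity)]
    apply ENNReal.ofReal_le_ofReal
    rw [integral_const_mul, bes_angle (fun u => ‖H u‖ ^ 2) R s hs0.ne']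
    refine mul_le_mul_of_nonneg_left ?_ (by positivity)
    exact mul_le_mul_of_nonneg_left (bes_circle H hH K hrs0 hrs) (by positivity)
  -- conclusion
  have hchain : ENNReal.ofReal (∫ s in Set.Ioi R, B s) ≤ ENNReal.ofReal N := by
    rw [ofReal_integral_eq_lintegral_ofReal hBint
      ((ae_restrict_iff' measurableSet_Ioi).mpr (Filter.Eventually.of_forall hB0))]
    calc ∫⁻ s in Set.Ioi R, ENNReal.ofReal (B s)
        ≤ ∫⁻ s in Set.Ioi R, ∫⁻ θ in Set.Ioo (-Real.pi) Real.pi,
            ENNReal.ofReal s • g (Complex.polarCoord.symm (s, θ)) :=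
          setLIntegral_mono' measurableSet_Ioi hang
      _ ≤ ∫⁻ s in Set.Ioi (0 : ℝ), ∫⁻ θ in Set.Ioo (-Real.pi) Real.pi,
            ENNReal.ofReal s • g (Complex.polarCoord.symm (s, θ)) :=
          lintegral_mono_set (Set.Ioi_subset_Ioi hR.le)
      _ = ∫⁻ p in Complex.polarCoord.target,
            ENNReal.ofReal p.1 • g (Complex.polarCoord.symm p) := by
          rw [Complex.polarCoord_target]
          symm
          apply setLIntegral_prod
          have h1 : Measurable (fun p : ℝ × ℝ => Complex.polarCoord.symm p) := by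
            simp only [Complex.polarCoord_symm_apply]
            fun_prop
          exact ((ENNReal.measurable_ofReal.comp measurable_fst).mul
            (hgm.comp h1)).aemeasurable
      _ = ∫⁻ z, g z := Complex.lintegral_comp_polarCoord_symm g
      _ = ∫⁻ z in S, ENNReal.ofReal (F z) := by
          rw [hg, lintegral_indicator hSo.measurableSet]
      _ = ENNReal.ofReal (∫ z in S, F z) := by
          rw [ofReal_integral_eq_lintegral_ofReal hint (Filter.Eventually.of_forall hF0)]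
      _ ≤ ENNReal.ofReal N := ENNReal.ofReal_le_ofReal hN
  rw [hBval] at hchain
  exact (ENNReal.ofReal_le_ofReal_iff hN0).mp hchain

theorem bes (H : ℂ → ℂ) (hH : DifferentiableOn ℂ H (Metric.ball 0 1)) (δ R N : ℝ) (hδ : 0 < δ)
    (hR : 0 < R)
    (hint : IntegrableOn (fun z : ℂ => ‖z‖ ^ (-(2 + 2 * δ)) * ‖H (R / z)‖ ^ 2) {z | R < ‖z‖})
    (hN : ∫ z in {z : ℂ | R < ‖z‖}, ‖z‖ ^ (-(2 + 2 * δ)) * ‖H (R / z)‖ ^ 2 ≤ N)
    (z : ℂ) (hz : R < ‖z‖) :
    Summable (fun k : ℕ => ((k : ℝ) + δ) * (R / ‖z‖) ^ (2 * ((k : ℝ) + δ))) ∧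
    ‖z‖ ^ (-(2 + 2 * δ)) * ‖H (R / z)‖ ^ 2 ≤
      N / (Real.pi * ‖z‖ ^ 2) * ∑' k : ℕ, ((k : ℝ) + δ) * (R / ‖z‖) ^ (2 * ((k : ℝ) + δ)) := by
  have hz0 : 0 < ‖z‖ := hR.trans hz
  set q : ℝ := R / ‖z‖ with hq
  have hq0 : 0 < q := by positivity
  have hq1 : q < 1 := (div_lt_one hz0).mpr hz
  have hkδ : ∀ k : ℕ, (0 : ℝ) < k + δ := by
    intro k
    have : (0 : ℝ) ≤ k := k.cast_nonneg
    linarith
  have hterm : ∀ k : ℕ, ((k : ℝ) + δ) * q ^ (2 * ((k : ℝ) + δ)) =
      q ^ (2 * δ) * (((k : ℝ) + δ) * (q ^ 2) ^ k) := by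
    intro k
    have e1 : q ^ (2 * ((k : ℝ) + δ)) = q ^ (2 * δ) * (q ^ 2) ^ k := by
      rw [← pow_mul, ← Real.rpow_natCast q (2 * k), ← Real.rpow_add hq0]
      congr 1
      push_cast
      ring
    rw [e1]
    ring
  have hs1 : Summable (fun k : ℕ => ((k : ℝ) + δ) * (q ^ 2) ^ k) := by
    have h2 : ‖q ^ 2‖ < 1 := by
      rw [Real.norm_eq_abs, abs_of_nonneg (by positivity)]
      nlinarith
    have h3 := summable_pow_mul_geometric_of_norm_lt_one 1 h2
    have h4 := (summable_geometric_of_norm_lt_one h2).mul_left δ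
    refine (h3.add h4).congr fun k => ?_
    ring
  have hs2 : Summable (fun k : ℕ => ((k : ℝ) + δ) * q ^ (2 * ((k : ℝ) + δ))) := by
    simp_rw [hterm]
    exact hs1.mul_left _
  refine ⟨hs2, ?_⟩
  simp_rw [hterm]
  rw [tsum_mul_left]
  set T : ℝ := ∑' k : ℕ, ((k : ℝ) + δ) * (q ^ 2) ^ k with hT
  have hN0 : 0 ≤ N := (integral_nonneg fun z => by positivity).trans hN
  set u : ℂ := R / z with hu
  have hun : ‖u‖ = q := by
    rw [hu, norm_div, Complex.norm_real, Real.norm_eq_abs, abs_of_pos hR]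
  have hsum := bes_hasSum H hH u (by rw [hun]; exact hq1)
  -- Cauchy-Schwarz for the partial sums
  have hpart : ∀ K : ℕ, ‖∑ k ∈ Finset.range K, u ^ k * besH H k 0‖ ^ 2 ≤
      N * (R ^ (2 * δ) / Real.pi * T) := by
    intro K
    have hRδ : 0 < R ^ (2 * δ) := Real.rpow_pos_of_pos hR _
    have h1 : ‖∑ k ∈ Finset.range K, u ^ k * besH H k 0‖ ≤
        ∑ k ∈ Finset.range K, (‖besH H k 0‖ * √(Real.pi * R ^ (-(2 * δ)) / (k + δ))) *
          (q ^ k * √((k + δ) * R ^ (2 * δ) / Real.pi)) := by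
      refine (norm_sum_le _ _).trans (le_of_eq (Finset.sum_congr rfl fun k _ => ?_))
      have e1 : √(Real.pi * R ^ (-(2 * δ)) / (k + δ)) * √((k + δ) * R ^ (2 * δ) / Real.pi) = 1 := by
        rw [← Real.sqrt_mul (by have := hkδ k; positivity)]
        have : Real.pi * R ^ (-(2 * δ)) / (k + δ) * ((k + δ) * R ^ (2 * δ) / Real.pi) = 1 := by
          rw [Real.rpow_neg hR.le]
          have := hkδ k
          field_simp
        rw [this, Real.sqrt_one]
      rw [norm_mul, norm_pow, hun]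
      calc q ^ k * ‖besH H k 0‖ = ‖besH H k 0‖ * q ^ k * 1 := by ring
        _ = _ := by
          rw [← e1]
          ring
    have h2 := Finset.sum_mul_sq_le_sq_mul_sq (Finset.range K)
      (fun k : ℕ => ‖besH H k 0‖ * √(Real.pi * R ^ (-(2 * δ)) / ((k : ℝ) + δ)))
      (fun k : ℕ => q ^ k * √(((k : ℝ) + δ) * R ^ (2 * δ) / Real.pi))
    have h3 : ∑ k ∈ Finset.range K,
        (‖besH H k 0‖ * √(Real.pi * R ^ (-(2 * δ)) / ((k : ℝ) + δ))) ^ 2 ≤ N := by
      refine le_trans (le_of_eq (Finset.sum_congr rfl fun k _ => ?_))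
        (bes_area H hH δ R N hδ hR hint hN K)
      rw [mul_pow, Real.sq_sqrt (by have := hkδ k; positivity)]
    have h4 : ∑ k ∈ Finset.range K, (q ^ k * √(((k : ℝ) + δ) * R ^ (2 * δ) / Real.pi)) ^ 2 ≤
        R ^ (2 * δ) / Real.pi * T := by
      have e1 : ∑ k ∈ Finset.range K, (q ^ k * √(((k : ℝ) + δ) * R ^ (2 * δ) / Real.pi)) ^ 2 =
          R ^ (2 * δ) / Real.pi * ∑ k ∈ Finset.range K, ((k : ℝ) + δ) * (q ^ 2) ^ k := by
        rw [Finset.mul_sum]
        refine Finset.sum_congr rfl fun k _ => ?_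
        rw [mul_pow, Real.sq_sqrt (by have := hkδ k; positivity), ← pow_mul, ← pow_mul,
          mul_comm k 2]
        ring
      rw [e1]
      refine mul_le_mul_of_nonneg_left ?_ (by positivity)
      exact hs1.sum_le_tsum _ fun k _ => by
        have := hkδ k
        positivity
    calc ‖∑ k ∈ Finset.range K, u ^ k * besH H k 0‖ ^ 2 ≤ _ := pow_le_pow_left₀ (norm_nonneg _) h1 2
      _ ≤ _ := h2
      _ ≤ N * (R ^ (2 * δ) / Real.pi * T) := by
        refine mul_le_mul h3 h4 (Finset.sum_nonneg fun k _ => by positivity) hN0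
  have hlim : ‖H u‖ ^ 2 ≤ N * (R ^ (2 * δ) / Real.pi * T) := by
    have h1 := (hsum.tendsto_sum_nat.norm).pow 2
    exact le_of_tendsto' h1 hpart
  have hzp : 0 ≤ ‖z‖ ^ (-(2 + 2 * δ)) := Real.rpow_nonneg hz0.le _
  refine (mul_le_mul_of_nonneg_left hlim hzp).trans (le_of_eq ?_)
  have e1 : ‖z‖ ^ (-(2 + 2 * δ)) = (‖z‖ ^ 2)⁻¹ * (‖z‖ ^ (2 * δ))⁻¹ := by
    rw [← Real.rpow_natCast ‖z‖ 2, ← Real.rpow_neg hz0.le, ← Real.rpow_neg hz0.le,
      ← Real.rpow_add hz0]
    congr 1
    push_cast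
    ring
  have e2 : q ^ (2 * δ) = R ^ (2 * δ) / ‖z‖ ^ (2 * δ) := Real.div_rpow hR.le hz0.le _
  rw [e1, e2]
  have h5 : 0 < ‖z‖ ^ (2 * δ) := Real.rpow_pos_of_pos hz0 _
  field_simp

end SzU
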