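import Pool.Agent.SzU.EnNeg

/-!
Comparison of the energy of a probability measure with the energy of the uniform measure on the
circle of radius `R` (potential `max (log R) (log |x|)`, in Mathlib
`circleAverage_log_norm_sub_const_eq_log_radius_add_posLog`).
-/

open MeasureTheory

namespace SzU

/-- The uniform probability measure on the circle of radius `R` about zero. -/
noncomputable def circ (R : ℝ) : Measure ℂ :=
  (ENNReal.ofReal (2 * Real.pi)⁻¹) •
    ((volume.restrict (Set.Ioc 0 (2 * Real.pi))).map (circleMap 0 R))

theorem circ_prob (R : ℝ) : IsProbabilityMeasure (circ R) := by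
  constructor
  rw [circ, Measure.smul_apply, Measure.map_apply (continuous_circleMap 0 R).measurable
    MeasurableSet.univ, Set.preimage_univ, Measure.restrict_apply_univ, Real.volume_Ioc, sub_zero,
    smul_eq_mul, ← ENNReal.ofReal_mul (by positivity), inv_mul_cancel₀ (by positivity),
    ENNReal.ofReal_one]

theorem circ_null (R : ℝ) (hR : 0 < R) : NullSingletonClass (circ R) := by
  constructor
  intro x
  rw [circ, Measure.smul_apply, Measure.map_apply (continuous_circleMap 0 R).measurable
    (measurableSet_singleton x), Measure.restrict_apply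
    ((continuous_circleMap 0 R).measurable (measurableSet_singleton x))]
  have hs : Set.Subsingleton (circleMap 0 R ⁻¹' {x} ∩ Set.Ioc 0 (2 * Real.pi)) := by
    intro a ha b hb
    have hinj := injOn_circleMap_of_abs_sub_le (a := 0) (b := 2 * Real.pi) (c := 0) hR.ne'
      (by simp [abs_of_pos Real.pi_pos])
    rw [Set.uIoc_of_le (by positivity)] at hinj
    have h1 : circleMap 0 R a = x := ha.1
    have h2 : circleMap 0 R b = x := hb.1
    exact hinj ha.2 hb.2 (h1.trans h2.symm)
  rw [hs.measure_zero]
  simp

theorem circ_integral (R : ℝ) (f : ℂ → ℝ) (hf : Measurable f) :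
    ∫ y, f y ∂(circ R) = Real.circleAverage f 0 R := by
  rw [circ, integral_smul_measure, integral_map (continuous_circleMap 0 R).aemeasurable
    hf.aestronglyMeasurable, Real.circleAverage_def,
    intervalIntegral.integral_of_le (by positivity), ENNReal.toReal_ofReal (by positivity)]

theorem circ_integrable (R : ℝ) (f : ℂ → ℝ) (hf : Measurable f) (hi : CircleIntegrable f 0 R) :
    Integrable f (circ R) := by
  unfold circ
  apply Integrable.smul_measure _ ENNReal.ofReal_ne_top
  rw [integrable_map_measure hf.aestronglyMeasurable (continuous_circleMap 0 R).aemeasurable]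
  rw [CircleIntegrable, intervalIntegrable_iff_integrableOn_Ioc_of_le (by positivity)] at hi
  exact hi

theorem circ_norm (R : ℝ) (hR : 0 < R) : ∀ᵐ y ∂(circ R), ‖y‖ = R := by
  unfold circ
  apply Measure.ae_smul_measure
  rw [ae_map_iff (continuous_circleMap 0 R).aemeasurable
    (measurableSet_eq_fun measurable_norm measurable_const)]
  apply Filter.Eventually.of_forall
  intro t
  rw [norm_circleMap_zero, abs_of_pos hR]

theorem meas_log (x : ℂ) : Measurable (fun y : ℂ => Real.log ‖x - y‖) :=
  Real.measurable_log.comp (measurable_const.sub measurable_id).norm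

theorem circ_log_int (R : ℝ) (x : ℂ) : Integrable (fun y : ℂ => Real.log ‖x - y‖) (circ R) := by
  apply circ_integrable R _ (meas_log x)
  have h := circleIntegrable_log_norm_sub_const (a := x) (c := 0) R
  have e : (fun y : ℂ => Real.log ‖x - y‖) = (fun y : ℂ => Real.log ‖y - x‖) := by
    funext y
    rw [norm_sub_rev]
  rw [e]
  exact h

theorem circ_pot (R : ℝ) (hR : 0 < R) (x : ℂ) :
    ∫ y, Real.log ‖x - y‖ ∂(circ R) = Real.log R + max 0 (Real.log (‖x‖ / R)) := by
  rw [circ_integral R _ (meas_log x)]
  have e : (fun y : ℂ => Real.log ‖x - y‖) = (fun y : ℂ => Real.log ‖y - x‖) := by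
    funext y
    rw [norm_sub_rev]
  rw [e]
  have h := circleAverage_log_norm_sub_const_eq_log_radius_add_posLog (a := x) (c := 0) (R := R)
    hR.ne'
  rw [h, Real.posLog_apply, zero_sub, norm_neg, inv_mul_eq_div]

theorem circ_prod_int (m : Measure ℂ) [IsProbabilityMeasure m]
    (h : Integrable (fun x : ℂ => Real.log (1 + ‖x‖)) m) (R : ℝ) (hR : 0 < R) :
    Integrable (fun p : ℂ × ℂ => Real.log ‖p.1 - p.2‖) (m.prod (circ R)) := by
  have := circ_prob R
  have hmeas : Measurable (fun p : ℂ × ℂ => Real.log ‖p.1 - p.2‖) :=
    Real.measurable_log.comp (measurable_fst.sub measurable_snd).norm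
  rw [integrable_prod_iff hmeas.aestronglyMeasurable]
  refine ⟨Filter.Eventually.of_forall (fun x => circ_log_int R x), ?_⟩
  have hg : Integrable (fun x : ℂ => 2 * (Real.log (1 + ‖x‖) + Real.log (1 + R)) + |Real.log R|)
      m := ((h.add (integrable_const _)).const_mul 2).add (integrable_const _)
  refine hg.mono' ?_ ?_
  · exact (hmeas.norm.aestronglyMeasurable (μ := m.prod (circ R))).integral_prod_right'
  · apply Filter.Eventually.of_forall
    intro x
    rw [Real.norm_of_nonneg (integral_nonneg (fun y => norm_nonneg _))]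
    have hb : ∫ y, ‖Real.log ‖x - y‖‖ ∂(circ R) ≤
        ∫ y, (2 * (Real.log (1 + ‖x‖) + Real.log (1 + R)) - Real.log ‖x - y‖) ∂(circ R) := by
      apply integral_mono_ae (circ_log_int R x).norm
        ((integrable_const _).sub (circ_log_int R x))
      filter_upwards [circ_norm R hR] with y hy
      have h0 : ‖x - y‖ ≤ (1 + ‖x‖) * (1 + R) := by
        have := norm_sub_le x y
        rw [hy] at this
        nlinarith [norm_nonneg x, hR.le, mul_nonneg (norm_nonneg x) hR.le]
      have h1 : (0 : ℝ) < 1 + ‖x‖ := by positivity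
      have h2 : (0 : ℝ) < 1 + R := by positivity
      have h3 : 0 ≤ Real.log (1 + ‖x‖) := Real.log_nonneg (by linarith [norm_nonneg x])
      have h4 : 0 ≤ Real.log (1 + R) := Real.log_nonneg (by linarith)
      have h5 : Real.log ‖x - y‖ ≤ Real.log (1 + ‖x‖) + Real.log (1 + R) := by
        rcases (norm_nonneg (x - y)).eq_or_lt with h6 | h6
        · rw [← h6, Real.log_zero]
          linarith
        · rw [← Real.log_mul h1.ne' h2.ne']
          exact Real.log_le_log h6 h0
      change ‖Real.log ‖x - y‖‖ ≤
        2 * (Real.log (1 + ‖x‖) + Real.log (1 + R)) - Real.log ‖x - y‖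
      rw [Real.norm_eq_abs, abs_le]
      constructor
      · linarith
      · linarith
    rw [integral_sub (integrable_const _) (circ_log_int R x), circ_pot R hR x] at hb
    simp only [integral_const, probReal_univ, one_smul] at hb
    have h6 : -Real.log R ≤ |Real.log R| := neg_le_abs _
    have h7 : 0 ≤ max 0 (Real.log (‖x‖ / R)) := le_max_left _ _
    linarith

theorem energy_le_circle (μ : Measure ℂ) [IsProbabilityMeasure μ] [NullSingletonClass μ]
    (h1 : Integrable (fun p : ℂ × ℂ => Real.log ‖p.1 - p.2‖) (μ.prod μ))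
    (h2 : Integrable (fun x : ℂ => Real.log (1 + ‖x‖)) μ) (R : ℝ) (hR : 0 < R) :
    ∫ p : ℂ × ℂ, Real.log ‖p.1 - p.2‖ ∂(μ.prod μ) ≤
      Real.log R + 2 * ∫ x : ℂ, max 0 (Real.log (‖x‖ / R)) ∂μ := by
  have := circ_prob R
  have := circ_null R hR
  have h12 := circ_prod_int μ h2 R hR
  have h3 : Integrable (fun x : ℂ => Real.log (1 + ‖x‖)) (circ R) := by
    refine Integrable.mono' (integrable_const (Real.log (1 + R))) ?_ ?_
    · exact (Real.measurable_log.comp (measurable_const.add measurable_norm)).aestronglyMeasurable
    · filter_upwards [circ_norm R hR] with y hy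
      rw [hy, Real.norm_of_nonneg (Real.log_nonneg (by linarith))]
  have h22 := circ_prod_int (circ R) h3 R hR
  have key := energy_neg μ (circ R) h1 h12 h22
  have e12 : ∫ p : ℂ × ℂ, Real.log ‖p.1 - p.2‖ ∂(μ.prod (circ R)) =
      Real.log R + ∫ x : ℂ, max 0 (Real.log (‖x‖ / R)) ∂μ := by
    rw [integral_prod _ h12]
    have hU : Integrable (fun x : ℂ => ∫ y, Real.log ‖x - y‖ ∂(circ R)) μ :=
      h12.integral_prod_left
    simp only [circ_pot R hR] at hU ⊢
    have hV : Integrable (fun x : ℂ => max 0 (Real.log (‖x‖ / R))) μ := by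
      have := hU.sub (integrable_const (Real.log R))
      refine this.congr (Filter.Eventually.of_forall (fun x => ?_))
      change Real.log R + max 0 (Real.log (‖x‖ / R)) - Real.log R = max 0 (Real.log (‖x‖ / R))
      ring
    rw [integral_add (integrable_const _) hV]
    simp
  have e22 : ∫ p : ℂ × ℂ, Real.log ‖p.1 - p.2‖ ∂((circ R).prod (circ R)) = Real.log R := by
    rw [integral_prod _ h22]
    simp only [circ_pot R hR]
    have : ∀ᵐ x ∂(circ R), Real.log R + max 0 (Real.log (‖x‖ / R)) = Real.log R := by
      filter_upwards [circ_norm R hR] with x hx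
      rw [hx, div_self hR.ne', Real.log_one, max_self, add_zero]
    rw [integral_congr_ae this]
    simp
  rw [e12, e22] at key
  linarith

end SzU
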