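import Pool.Agent.SzU.Energy
import Pool.Agent.SzSP.Main2

/-!
Almost all cyclic covers, with a universal constant.
-/

open Polynomial MeasureTheory
open scoped Classical

namespace SzU

theorem log_three_halves : Real.log (3 / 2) ≤ 0.42 := by
  rw [Real.log_le_iff_le_exp (by norm_num)]
  have := Real.quadratic_le_exp_of_nonneg (x := 0.42) (by norm_num)
  linarith

theorem const_le (g : ℝ) (hg : 2 ≤ g) :
    1 / 2 * Real.log (1 + 1 / g) + 1 / g * Real.log (1 + g) ≤ 0.77 := by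
  have hg0 : 0 < g := by linarith
  have h1 : Real.log (1 + 1 / g) ≤ 0.42 := by
    refine le_trans (Real.log_le_log (by positivity) ?_) log_three_halves
    have : 1 / g ≤ 1 / 2 := one_div_le_one_div_of_le (by norm_num) hg
    linarith
  have h3 : Real.log 3 ≤ 1.1132 := by
    have h4 : Real.log 3 = Real.log 2 + Real.log (3 / 2) := by
      rw [← Real.log_mul (by norm_num) (by norm_num)]
      norm_num
    rw [h4]
    linarith [log_three_halves, Real.log_two_lt_d9]
  have h5 : Real.log (1 + g) ≤ 1.1132 + (g - 2) / 3 := by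
    have h6 : Real.log (1 + g) = Real.log 3 + Real.log ((1 + g) / 3) := by
      rw [← Real.log_mul (by norm_num) (by positivity)]
      congr 1
      ring
    have h7 := Real.log_le_sub_one_of_pos (show 0 < (1 + g) / 3 by positivity)
    rw [h6]
    linarith
  have h8 : 1 / g * Real.log (1 + g) ≤ 0.5566 := by
    rw [div_mul_eq_mul_div, one_mul, div_le_iff₀ hg0]
    linarith
  linarith

theorem log_two_mul_le (m : ℕ) (hm : 2 ≤ m) : Real.log (2 * m) ≤ 0.694 * m := by
  have hm0 : (2 : ℝ) ≤ m := by exact_mod_cast hm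
  have h1 : Real.log (2 * m) = 2 * Real.log 2 + Real.log (m / 2) := by
    have : (2 * m : ℝ) = 2 ^ 2 * (m / 2) := by ring
    rw [this, Real.log_mul (by norm_num) (by positivity), Real.log_pow]
    norm_num
  have h2 := Real.log_le_sub_one_of_pos (show 0 < (m : ℝ) / 2 by positivity)
  rw [h1]
  linarith [Real.log_two_lt_d9]

theorem arch_univ (m n : ℕ) (hmn : m.Coprime n) (hn : 2 ≤ n) (hg : 2 ≤ SzSP.genus m n)
    (T : ℕ) (hT : 1 ≤ T) (a : Fin (n - 1) → ℤ) (ha : a ∈ SzSP.box n T)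
    (hd : (SzSP.poly n a).discr ≠ 0)
    (e : (j : ℕ) → Fin ((SzSP.poly n a).natDegree * j / m) → ℂ[X])
    (he : SzSP.IsONB m (SzSP.poly n a) e) :
    SzSP.archTerm m (SzSP.poly n a) e ≤ Real.log (2 * T) / m + 0.77 := by
  obtain ⟨hm, -⟩ := SzSP.genus_two hg
  have hmon : (SzSP.poly n a).Monic := SzSP.poly_mon n (by omega) a
  have hdeg : (SzSP.poly n a).natDegree = n := SzSP.poly_natDegree n (by omega) a
  have hT0 : (1 : ℝ) ≤ T := by exact_mod_cast hT
  have hm0 : (2 : ℝ) ≤ m := by exact_mod_cast hm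
  have hF : (SzSP.cpx (SzSP.poly n a)).Monic := SzSP.cpx_monic hmon
  have hFd : (SzSP.cpx (SzSP.poly n a)).natDegree = (SzSP.poly n a).natDegree :=
    SzSP.cpx_natDegree hmon
  have hsep : (SzSP.cpx (SzSP.poly n a)).Separable := by
    have h1 : (SzSP.cpx (SzSP.poly n a)).discr ≠ 0 := by
      unfold SzSP.cpx
      rw [SzSP.discr_map _ hmon]
      simpa using hd
    exact (SzSP.discr_ne_zero_iff hF).1 h1
  have h := energy_univ m (SzSP.poly n a).natDegree hm (SzSP.cpx (SzSP.poly n a)) hF hsep hFd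
    (by omega) (by rw [hdeg]; exact hmn) (by rw [hdeg]; exact le_trans (by omega) hg) e he (2 * T)
    (by positivity) 0 (fun α hα => by
      rw [sub_zero]
      exact SzSP.roots_le n (by omega) T hT a ha α hα)
  have hgn : (2 : ℝ) ≤ SzNF.genus m (SzSP.poly n a).natDegree := by
    rw [hdeg]
    exact_mod_cast hg
  have hc := const_le _ hgn
  have hE : SzSP.archTerm m (SzSP.poly n a) e = 1 / (m : ℝ) *
      SzNF.energy m (SzSP.poly n a).natDegree (SzSP.cpx (SzSP.poly n a)) e := rfl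
  rw [hE, div_mul_eq_mul_div, one_mul, div_le_iff₀ (by linarith)]
  refine h.trans ?_
  have : (Real.log (2 * T) / m + 0.77) * m = Real.log (2 * T) + m * 0.77 := by
    field_simp
  rw [this]
  have := mul_le_mul_of_nonneg_left hc (by linarith : (0 : ℝ) ≤ m)
  linarith

theorem cov_aux (m n : ℕ) (hmn : m.Coprime n) (hn : 3 ≤ n) (hg : 2 ≤ SzSP.genus m n) (κ : ℝ)
    (hκ : 1 / (n : ℝ) < κ) (hκ1 : κ ≤ 1) :
    ∃ A δ : ℝ, 0 < δ ∧ ∀ T : ℕ, 1 ≤ T →
      (((SzSP.box n T).filter (fun a => ¬ SzSP.SmallPoint m (SzSP.poly n a)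
        (κ / m * Real.log (SzSP.badPart m (SzSP.poly n a)) + 3 / 2))).card : ℝ)
        ≤ A * (T : ℝ) ^ (-δ) * (SzSP.box n T).card := by
  obtain ⟨hm, -⟩ := SzSP.genus_two hg
  obtain ⟨A, δ, hδ, hc⟩ := SzC2.count2 m n (by omega) hn κ hκ
  refine ⟨A, δ, hδ, fun T hT => le_trans ?_ (hc T hT)⟩
  rw [Nat.cast_le]
  apply Finset.card_le_card
  intro a ha
  rw [Finset.mem_filter] at ha ⊢
  refine ⟨ha.1, ?_⟩
  by_contra hcon
  rw [not_or, not_lt, SzSP.badPart_eq] at hcon
  obtain ⟨hd, hlog⟩ := hcon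
  apply ha.2
  have hmon : (SzSP.poly n a).Monic := SzSP.poly_mon n (by omega) a
  have hdeg : (SzSP.poly n a).natDegree = n := SzSP.poly_natDegree n (by omega) a
  have hT0 : (1 : ℝ) ≤ T := by exact_mod_cast hT
  have hm0 : (2 : ℝ) ≤ m := by exact_mod_cast hm
  have hN : (1 : ℝ) ≤ SzSP.badPart m (SzSP.poly n a) := by
    exact_mod_cast SzSP.badPart_pos m (SzSP.poly n a)
  have hκ0 : 0 < κ := lt_trans (by positivity) hκ
  refine ⟨hd, fun p => SzSP.logRadius_nonneg p m (by omega) _ hmon (by omega)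
    (by rw [hdeg]; exact hmn), SzSP.exists_onb m hm _ hmon hd (by rw [hdeg]; exact hmn),
    fun e he => ?_⟩
  have harch := arch_univ m n hmn (by omega) hg T hT a ha.1 hd e he
  set N : ℝ := (SzSP.badPart m (SzSP.poly n a) : ℝ) with hNdef
  rw [Real.log_mul (by positivity) (by positivity)] at hlog
  have h1 : Real.log (2 * (T : ℝ)) = Real.log 2 + Real.log T :=
    Real.log_mul (by norm_num) (by positivity)
  have h4' : 0 ≤ Real.log m := Real.log_nonneg (by linarith)
  have h2 : Real.log (2 * m) = Real.log 2 + Real.log m :=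
    Real.log_mul (by norm_num) (by positivity)
  have h3 := log_two_mul_le m hm
  have h8 : Real.log (2 * (T : ℝ)) / m ≤ κ / m * Real.log N + 0.694 := by
    rw [div_le_iff₀ (by linarith)]
    have : (κ / m * Real.log N + 0.694) * m = κ * Real.log N + 0.694 * m := by
      field_simp
    rw [this, h1]
    nlinarith
  have hfin : SzSP.archTerm m (SzSP.poly n a) e ≤ κ / m * Real.log N + 3 / 2 := by linarith
  unfold SzSP.height
  refine le_trans ?_ (EReal.coe_le_coe_iff.mpr hfin)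
  have h0 : (0 : EReal) ≤ ((∑' p : Nat.Primes, (SzSP.logRadius p m (SzSP.poly n a)).toENNReal :
      ENNReal) : EReal) := EReal.coe_ennreal_nonneg _
  calc (SzSP.archTerm m (SzSP.poly n a) e : EReal) - _ ≤
        (SzSP.archTerm m (SzSP.poly n a) e : EReal) - 0 := EReal.sub_le_sub le_rfl h0
    _ = _ := by rw [sub_zero]

theorem cov (m n : ℕ) (hmn : m.Coprime n) (hn : 3 ≤ n) (hg : 2 ≤ SzSP.genus m n) (κ : ℝ)
    (hκ : 1 / (n : ℝ) < κ) :
    ∃ A δ : ℝ, 0 < δ ∧ ∀ T : ℕ, 1 ≤ T →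
      (((SzSP.box n T).filter (fun a => ¬ SzSP.SmallPoint m (SzSP.poly n a)
        (κ / m * Real.log (SzSP.badPart m (SzSP.poly n a)) + 3 / 2))).card : ℝ)
        ≤ A * (T : ℝ) ^ (-δ) * (SzSP.box n T).card := by
  rcases le_total κ 1 with h | h
  · exact cov_aux m n hmn hn hg κ hκ h
  · have hn3 : (3 : ℝ) ≤ n := by exact_mod_cast hn
    obtain ⟨A, δ, hδ, hc⟩ := cov_aux m n hmn hn hg 1 (by
      rw [div_lt_one (by linarith)]; linarith) le_rfl
    refine ⟨A, δ, hδ, fun T hT => le_trans ?_ (hc T hT)⟩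
    rw [Nat.cast_le]
    apply Finset.card_le_card
    intro a ha
    rw [Finset.mem_filter] at ha ⊢
    refine ⟨ha.1, fun hs => ha.2 ?_⟩
    obtain ⟨h1, h2, h3, h4⟩ := hs
    refine ⟨h1, h2, h3, fun e he => (h4 e he).trans (EReal.coe_le_coe_iff.mpr ?_)⟩
    have hN : (1 : ℝ) ≤ SzSP.badPart m (SzSP.poly n a) := by
      exact_mod_cast SzSP.badPart_pos m (SzSP.poly n a)
    have hl := Real.log_nonneg hN
    have hm0 : (0 : ℝ) ≤ m := by positivity
    have : 1 / (m : ℝ) * Real.log (SzSP.badPart m (SzSP.poly n a)) ≤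
        κ / m * Real.log (SzSP.badPart m (SzSP.poly n a)) :=
      mul_le_mul_of_nonneg_right (div_le_div_of_nonneg_right h hm0) hl
    linarith

end SzU
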