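import Mathlib

/-!
The logarithmic energy of a signed measure of mass zero is not positive: Gaussian kernels
`exp (-t |x-y|^2)` are positive definite and `2 log r = ∫ (exp (-t) - exp (-t r^2)) dt/t`.
-/

open MeasureTheory

namespace SzU

/-- Frullani's integral for the exponential, with integrability. -/
theorem frul {a b : ℝ} (ha : 0 < a) (hab : a ≤ b) :
    IntegrableOn (fun t : ℝ => (Real.exp (-(t * a)) - Real.exp (-(t * b))) / t) (Set.Ioi 0) ∧
    ∫ t in Set.Ioi (0 : ℝ), (Real.exp (-(t * a)) - Real.exp (-(t * b))) / t =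
      Real.log b - Real.log a := by
  have hb : 0 < b := lt_of_lt_of_le ha hab
  have hcont : Continuous (fun z : ℝ × ℝ => Real.exp (-(z.1 * z.2))) := by fun_prop
  have hval : ∀ s : ℝ, 0 < s → ∫ t in Set.Ioi (0 : ℝ), Real.exp (-(t * s)) = s⁻¹ := by
    intro s hs
    have h := integral_exp_mul_Ioi (a := -s) (by linarith) 0
    have e : (fun t : ℝ => Real.exp (-(t * s))) = fun t : ℝ => Real.exp (-s * t) := by
      funext t; congr 1; ring
    rw [e, h]
    simp only [mul_zero, Real.exp_zero]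
    field_simp
  have hint : ∀ s : ℝ, 0 < s → IntegrableOn (fun t : ℝ => Real.exp (-(t * s))) (Set.Ioi 0) := by
    intro s hs
    have h := integrableOn_exp_mul_Ioi (a := -s) (by linarith) 0
    have e : (fun t : ℝ => Real.exp (-(t * s))) = fun t : ℝ => Real.exp (-s * t) := by
      funext t; congr 1; ring
    rw [e]; exact h
  have hinv : IntegrableOn (fun s : ℝ => s⁻¹) (Set.Ioc a b) := by
    have : IntervalIntegrable (fun s : ℝ => s⁻¹) volume a b := by
      apply intervalIntegral.intervalIntegrable_inv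
      · intro x hx
        rw [Set.uIcc_of_le hab] at hx
        exact (lt_of_lt_of_le ha hx.1).ne'
      · exact continuousOn_id
    exact (intervalIntegrable_iff_integrableOn_Ioc_of_le hab).1 this
  have hF : Integrable (fun z : ℝ × ℝ => Real.exp (-(z.1 * z.2)))
      ((volume.restrict (Set.Ioi (0 : ℝ))).prod (volume.restrict (Set.Ioc a b))) := by
    rw [integrable_prod_iff' hcont.aestronglyMeasurable]
    constructor
    · filter_upwards [ae_restrict_mem measurableSet_Ioc] with s hs
      exact hint s (lt_trans ha hs.1)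
    · refine hinv.congr ?_
      filter_upwards [ae_restrict_mem measurableSet_Ioc] with s hs
      simp only [Real.norm_eq_abs, Real.abs_exp]
      exact (hval s (lt_trans ha hs.1)).symm
  have hinner : ∀ t : ℝ, 0 < t → ∫ s in Set.Ioc a b, Real.exp (-(t * s)) =
      (Real.exp (-(t * a)) - Real.exp (-(t * b))) / t := by
    intro t ht
    rw [← intervalIntegral.integral_of_le hab]
    have hder : ∀ s ∈ Set.uIcc a b, HasDerivAt (fun s : ℝ => -(Real.exp (-(t * s)) / t))
        (Real.exp (-(t * s))) s := by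
      intro s _
      have h1 : HasDerivAt (fun s : ℝ => -(t * s)) (-t) s := by
        have h0 := (hasDerivAt_id' s).const_mul (-t)
        have e0 : (fun s : ℝ => -(t * s)) = fun s : ℝ => (-t) * s := by funext x; ring
        rw [e0]
        simpa using h0
      have h2 := (h1.exp.div_const t).neg
      have e : -(Real.exp (-(t * s)) * -t / t) = Real.exp (-(t * s)) := by
        field_simp
      rw [e] at h2
      exact h2
    rw [intervalIntegral.integral_eq_sub_of_hasDerivAt hder
      (by apply Continuous.intervalIntegrable; fun_prop)]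
    ring
  have hI := hF.integral_prod_left
  constructor
  · refine (hI.congr ?_)
    filter_upwards [ae_restrict_mem measurableSet_Ioi] with t ht
    exact hinner t ht
  · have h1 : ∫ t in Set.Ioi (0 : ℝ), (Real.exp (-(t * a)) - Real.exp (-(t * b))) / t =
        ∫ t in Set.Ioi (0 : ℝ), ∫ s in Set.Ioc a b, Real.exp (-(t * s)) := by
      apply setIntegral_congr_fun measurableSet_Ioi
      intro t ht
      exact (hinner t ht).symm
    rw [h1, integral_integral_swap (f := fun t s : ℝ => Real.exp (-(t * s))) hF]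
    have h2 : ∫ s in Set.Ioc a b, ∫ t in Set.Ioi (0 : ℝ), Real.exp (-(t * s)) =
        ∫ s in Set.Ioc a b, s⁻¹ := by
      apply setIntegral_congr_fun measurableSet_Ioc
      intro s hs
      exact hval s (lt_trans ha hs.1)
    rw [h2, ← intervalIntegral.integral_of_le hab, integral_inv_of_pos ha hb,
      Real.log_div hb.ne' ha.ne']

/-- The kernel of the logarithm. -/
theorem frul_log {a : ℝ} (ha : 0 < a) :
    IntegrableOn (fun t : ℝ => (Real.exp (-t) - Real.exp (-(t * a))) / t) (Set.Ioi 0) ∧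
    ∫ t in Set.Ioi (0 : ℝ), (Real.exp (-t) - Real.exp (-(t * a))) / t = Real.log a ∧
    ∫ t in Set.Ioi (0 : ℝ), |(Real.exp (-t) - Real.exp (-(t * a))) / t| = |Real.log a| := by
  rcases le_total 1 a with h | h
  · obtain ⟨h1, h2⟩ := frul one_pos h
    simp only [mul_one] at h1 h2
    rw [Real.log_one, sub_zero] at h2
    refine ⟨h1, h2, ?_⟩
    rw [abs_of_nonneg (Real.log_nonneg h), ← h2]
    apply setIntegral_congr_fun measurableSet_Ioi
    intro t ht
    have ht' : 0 < t := ht
    simp only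
    rw [abs_of_nonneg]
    apply div_nonneg _ ht'.le
    rw [sub_nonneg, Real.exp_le_exp]
    nlinarith
  · obtain ⟨h1, h2⟩ := frul ha h
    simp only [mul_one] at h1 h2
    rw [Real.log_one, zero_sub] at h2
    have e : (fun t : ℝ => (Real.exp (-t) - Real.exp (-(t * a))) / t) =
        fun t : ℝ => -((Real.exp (-(t * a)) - Real.exp (-t)) / t) := by
      funext t; ring
    refine ⟨?_, ?_, ?_⟩
    · rw [e]; exact h1.neg
    · rw [e, integral_neg, h2, neg_neg]
    · rw [abs_of_nonpos (Real.log_nonpos ha.le h), ← h2]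
      apply setIntegral_congr_fun measurableSet_Ioi
      intro t ht
      have ht' : 0 < t := ht
      simp only
      rw [abs_of_nonpos]
      · ring
      · apply div_nonpos_of_nonpos_of_nonneg _ ht'.le
        rw [sub_nonpos, Real.exp_le_exp]
        nlinarith

/-- The diagonal is a null set. -/
theorem diag_null (α β : Measure ℂ) [IsProbabilityMeasure α] [IsProbabilityMeasure β]
    [NullSingletonClass β] : ∀ᵐ p ∂(α.prod β), p.1 ≠ p.2 := by
  have hms : MeasurableSet {p : ℂ × ℂ | p.1 = p.2} :=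
    measurableSet_eq_fun measurable_fst measurable_snd
  have h : (α.prod β) {p : ℂ × ℂ | p.1 = p.2} = 0 := by
    rw [Measure.measure_prod_null hms]
    filter_upwards with x
    have e : Prod.mk x ⁻¹' {p : ℂ × ℂ | p.1 = p.2} = {x} := by
      ext y
      simp [eq_comm]
    rw [e]
    simp
  rw [ae_iff]
  simpa using h

/-- The Gaussian energy. -/
noncomputable def gen (α β : Measure ℂ) (t : ℝ) : ℝ :=
  ∫ p : ℂ × ℂ, Real.exp (-(t * ‖p.1 - p.2‖ ^ 2)) ∂(α.prod β)

theorem gint (α β : Measure ℂ) [IsProbabilityMeasure α] [IsProbabilityMeasure β] {t : ℝ}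
    (ht : 0 < t) :
    Integrable (fun p : ℂ × ℂ => Real.exp (-(t * ‖p.1 - p.2‖ ^ 2))) (α.prod β) := by
  apply Integrable.of_bound (C := 1)
  · apply Continuous.aestronglyMeasurable
    fun_prop
  · filter_upwards with p
    rw [Real.norm_eq_abs, Real.abs_exp, Real.exp_le_one_iff]
    have : 0 ≤ t * ‖p.1 - p.2‖ ^ 2 := by positivity
    linarith

/-- The representation of the logarithmic energy by Gaussian energies. -/
theorem rep (α β : Measure ℂ) [IsProbabilityMeasure α] [IsProbabilityMeasure β]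
    [NullSingletonClass β]
    (h : Integrable (fun p : ℂ × ℂ => Real.log ‖p.1 - p.2‖) (α.prod β)) :
    IntegrableOn (fun t : ℝ => (Real.exp (-t) - gen α β t) / t) (Set.Ioi 0) ∧
    ∫ t in Set.Ioi (0 : ℝ), (Real.exp (-t) - gen α β t) / t =
      2 * ∫ p : ℂ × ℂ, Real.log ‖p.1 - p.2‖ ∂(α.prod β) := by
  have hF : Integrable (fun z : (ℂ × ℂ) × ℝ =>
      (Real.exp (-z.2) - Real.exp (-(z.2 * ‖z.1.1 - z.1.2‖ ^ 2))) / z.2)
      ((α.prod β).prod (volume.restrict (Set.Ioi (0 : ℝ)))) := by
    rw [integrable_prod_iff]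
    · constructor
      · filter_upwards [diag_null α β] with p hp
        have hp' : 0 < ‖p.1 - p.2‖ ^ 2 := by
          have : 0 < ‖p.1 - p.2‖ := norm_pos_iff.2 (sub_ne_zero.2 hp)
          positivity
        exact (frul_log hp').1
      · have h2 : Integrable (fun p : ℂ × ℂ => |2 * Real.log ‖p.1 - p.2‖|) (α.prod β) :=
          (h.const_mul 2).abs
        refine h2.congr ?_
        filter_upwards [diag_null α β] with p hp
        have hp' : 0 < ‖p.1 - p.2‖ ^ 2 := by
          have : 0 < ‖p.1 - p.2‖ := norm_pos_iff.2 (sub_ne_zero.2 hp)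
          positivity
        simp only [Real.norm_eq_abs]
        rw [(frul_log hp').2.2, Real.log_pow]
        norm_num
    · apply Measurable.aestronglyMeasurable
      apply Measurable.div _ measurable_snd
      apply Measurable.sub
      · exact Real.measurable_exp.comp measurable_snd.neg
      · apply Continuous.measurable
        fun_prop
  have hin : ∀ t ∈ Set.Ioi (0 : ℝ), ∫ p : ℂ × ℂ,
      (Real.exp (-t) - Real.exp (-(t * ‖p.1 - p.2‖ ^ 2))) / t ∂(α.prod β) =
      (Real.exp (-t) - gen α β t) / t := by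
    intro t ht
    rw [integral_div, integral_sub (integrable_const _) (gint α β ht), integral_const]
    simp [gen]
  constructor
  · refine hF.integral_prod_right.congr ?_
    filter_upwards [ae_restrict_mem measurableSet_Ioi] with t ht
    exact hin t ht
  · have e1 : ∫ t in Set.Ioi (0 : ℝ), (Real.exp (-t) - gen α β t) / t =
        ∫ t in Set.Ioi (0 : ℝ), ∫ p : ℂ × ℂ,
          (Real.exp (-t) - Real.exp (-(t * ‖p.1 - p.2‖ ^ 2))) / t ∂(α.prod β) := by
      apply setIntegral_congr_fun measurableSet_Ioi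
      intro t ht
      exact (hin t ht).symm
    rw [e1, ← integral_integral_swap (f := fun (p : ℂ × ℂ) (t : ℝ) =>
      (Real.exp (-t) - Real.exp (-(t * ‖p.1 - p.2‖ ^ 2))) / t) hF, ← integral_const_mul]
    apply integral_congr_ae
    filter_upwards [diag_null α β] with p hp
    have hp' : 0 < ‖p.1 - p.2‖ ^ 2 := by
      have : 0 < ‖p.1 - p.2‖ := norm_pos_iff.2 (sub_ne_zero.2 hp)
      positivity
    rw [(frul_log hp').2.1, Real.log_pow]
    norm_num

/-- Potential of the Gaussian. -/
noncomputable def gpo (α : Measure ℂ) (t : ℝ) (z : ℂ) : ℝ :=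
  ∫ x : ℂ, Real.exp (-(2 * t * ‖z - x‖ ^ 2)) ∂α

theorem par (x y z : ℂ) : ‖z - x‖ ^ 2 + ‖z - y‖ ^ 2 =
    2 * ‖z - (x + y) / 2‖ ^ 2 + ‖x - y‖ ^ 2 / 2 := by
  rw [← Complex.normSq_eq_norm_sq, ← Complex.normSq_eq_norm_sq, ← Complex.normSq_eq_norm_sq,
    ← Complex.normSq_eq_norm_sq]
  simp only [Complex.normSq_apply, Complex.sub_re, Complex.sub_im, Complex.add_re, Complex.add_im,
    Complex.div_re, Complex.div_im]
  norm_num
  ring

theorem gker {t : ℝ} (ht : 0 < t) (x y : ℂ) :
    Integrable (fun z : ℂ => Real.exp (-(2 * t * ‖z - x‖ ^ 2)) *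
      Real.exp (-(2 * t * ‖z - y‖ ^ 2))) ∧
    ∫ z : ℂ, Real.exp (-(2 * t * ‖z - x‖ ^ 2)) * Real.exp (-(2 * t * ‖z - y‖ ^ 2)) =
      Real.pi / (4 * t) * Real.exp (-(t * ‖x - y‖ ^ 2)) := by
  have e : (fun z : ℂ => Real.exp (-(2 * t * ‖z - x‖ ^ 2)) * Real.exp (-(2 * t * ‖z - y‖ ^ 2))) =
      fun z : ℂ => Real.exp (-(4 * t) * ‖z - (x + y) / 2‖ ^ 2) * Real.exp (-(t * ‖x - y‖ ^ 2)) := by
    funext z
    rw [← Real.exp_add, ← Real.exp_add]
    congr 1
    have := par x y z
    linear_combination (-(2 * t)) * this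
  have h4 : 0 < 4 * t := by positivity
  have hI := GaussianFourier.integral_rexp_neg_mul_sq_norm (V := ℂ) h4
  have hv : ∫ z : ℂ, Real.exp (-(4 * t) * ‖z‖ ^ 2) = Real.pi / (4 * t) := by
    rw [hI]
    simp
  have hint : Integrable (fun z : ℂ => Real.exp (-(4 * t) * ‖z‖ ^ 2)) := by
    by_contra hcon
    rw [integral_undef hcon] at hv
    have : 0 < Real.pi / (4 * t) := by positivity
    linarith
  rw [e]
  constructor
  · exact (hint.comp_sub_right ((x + y) / 2)).mul_const _
  · rw [integral_mul_const, integral_sub_right_eq_self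
      (fun z : ℂ => Real.exp (-(4 * t) * ‖z‖ ^ 2)) ((x + y) / 2), hv]

/-- The Gaussian energy as an inner product of potentials. -/
theorem gen_eq (α β : Measure ℂ) [IsProbabilityMeasure α] [IsProbabilityMeasure β] {t : ℝ}
    (ht : 0 < t) :
    Integrable (fun z : ℂ => gpo α t z * gpo β t z) ∧
    ∫ z : ℂ, gpo α t z * gpo β t z = Real.pi / (4 * t) * gen α β t := by
  have hF : Integrable (fun w : (ℂ × ℂ) × ℂ =>
      Real.exp (-(2 * t * ‖w.2 - w.1.1‖ ^ 2)) * Real.exp (-(2 * t * ‖w.2 - w.1.2‖ ^ 2)))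
      ((α.prod β).prod volume) := by
    rw [integrable_prod_iff (by apply Continuous.aestronglyMeasurable; fun_prop)]
    constructor
    · filter_upwards with p
      exact (gker ht p.1 p.2).1
    · have h2 := (gint α β ht).const_mul (Real.pi / (4 * t))
      refine h2.congr ?_
      filter_upwards with p
      simp only [Real.norm_eq_abs, abs_mul, Real.abs_exp]
      exact (gker ht p.1 p.2).2.symm
  have hin : ∀ z : ℂ, ∫ p : ℂ × ℂ, Real.exp (-(2 * t * ‖z - p.1‖ ^ 2)) *
      Real.exp (-(2 * t * ‖z - p.2‖ ^ 2)) ∂(α.prod β) = gpo α t z * gpo β t z := by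
    intro z
    exact integral_prod_mul (μ := α) (ν := β) (fun x : ℂ => Real.exp (-(2 * t * ‖z - x‖ ^ 2)))
      (fun y : ℂ => Real.exp (-(2 * t * ‖z - y‖ ^ 2)))
  constructor
  · refine hF.integral_prod_right.congr ?_
    filter_upwards with z
    exact hin z
  · have e1 : ∫ z : ℂ, gpo α t z * gpo β t z = ∫ z : ℂ, ∫ p : ℂ × ℂ,
        Real.exp (-(2 * t * ‖z - p.1‖ ^ 2)) * Real.exp (-(2 * t * ‖z - p.2‖ ^ 2)) ∂(α.prod β) := by
      apply integral_congr_ae
      filter_upwards with z
      exact (hin z).symm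
    rw [e1, ← integral_integral_swap (f := fun (p : ℂ × ℂ) (z : ℂ) =>
      Real.exp (-(2 * t * ‖z - p.1‖ ^ 2)) * Real.exp (-(2 * t * ‖z - p.2‖ ^ 2))) hF, gen,
      ← integral_const_mul]
    apply integral_congr_ae
    filter_upwards with p
    exact (gker ht p.1 p.2).2

theorem gen_comm (α β : Measure ℂ) [IsProbabilityMeasure α] [IsProbabilityMeasure β] {t : ℝ}
    (ht : 0 < t) : gen α β t = gen β α t := by
  have h1 := (gen_eq α β ht).2
  have h2 := (gen_eq β α ht).2
  have e : ∫ z : ℂ, gpo α t z * gpo β t z = ∫ z : ℂ, gpo β t z * gpo α t z := by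
    congr 1; funext z; ring
  have hp : Real.pi / (4 * t) ≠ 0 := by positivity
  rw [h1, h2] at e
  exact mul_left_cancel₀ hp e

/-- Gaussian kernels are positive definite. -/
theorem gen_pd (α β : Measure ℂ) [IsProbabilityMeasure α] [IsProbabilityMeasure β] {t : ℝ}
    (ht : 0 < t) : 2 * gen α β t ≤ gen α α t + gen β β t := by
  obtain ⟨i1, e1⟩ := gen_eq α α ht
  obtain ⟨i2, e2⟩ := gen_eq α β ht
  obtain ⟨i3, e3⟩ := gen_eq β β ht
  have h0 : 0 ≤ ∫ z : ℂ, (gpo α t z - gpo β t z) ^ 2 := integral_nonneg (fun z => sq_nonneg _)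
  have e : (fun z : ℂ => (gpo α t z - gpo β t z) ^ 2) = fun z : ℂ =>
      (gpo α t z * gpo α t z + gpo β t z * gpo β t z) - 2 * (gpo α t z * gpo β t z) := by
    funext z; ring
  have i13 : Integrable (fun z : ℂ => gpo α t z * gpo α t z + gpo β t z * gpo β t z) := i1.add i3
  rw [e, integral_sub i13 (i2.const_mul 2), integral_add i1 i3, integral_const_mul,
    e1, e2, e3] at h0
  have hp : 0 < Real.pi / (4 * t) := by positivity
  have h1 : 0 ≤ Real.pi / (4 * t) * (gen α α t + gen β β t - 2 * gen α β t) := by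
    linarith
  have h2 := nonneg_of_mul_nonneg_right h1 hp
  linarith

theorem energy_neg (μ ν : Measure ℂ) [IsProbabilityMeasure μ] [IsProbabilityMeasure ν]
    [NullSingletonClass μ] [NullSingletonClass ν]
    (h11 : Integrable (fun p : ℂ × ℂ => Real.log ‖p.1 - p.2‖) (μ.prod μ))
    (h12 : Integrable (fun p : ℂ × ℂ => Real.log ‖p.1 - p.2‖) (μ.prod ν))
    (h22 : Integrable (fun p : ℂ × ℂ => Real.log ‖p.1 - p.2‖) (ν.prod ν)) :
    ∫ p : ℂ × ℂ, Real.log ‖p.1 - p.2‖ ∂(μ.prod μ) + ∫ p : ℂ × ℂ, Real.log ‖p.1 - p.2‖ ∂(ν.prod ν) ≤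
      2 * ∫ p : ℂ × ℂ, Real.log ‖p.1 - p.2‖ ∂(μ.prod ν) := by
  obtain ⟨i1, e1⟩ := rep μ μ h11
  obtain ⟨i2, e2⟩ := rep μ ν h12
  obtain ⟨i3, e3⟩ := rep ν ν h22
  have key : ∫ t in Set.Ioi (0 : ℝ), ((Real.exp (-t) - gen μ μ t) / t +
      (Real.exp (-t) - gen ν ν t) / t - 2 * ((Real.exp (-t) - gen μ ν t) / t)) ≤ 0 := by
    apply setIntegral_nonpos measurableSet_Ioi
    intro t ht
    have ht' : 0 < t := ht
    have h := gen_pd μ ν ht'
    have e : (Real.exp (-t) - gen μ μ t) / t + (Real.exp (-t) - gen ν ν t) / t -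
        2 * ((Real.exp (-t) - gen μ ν t) / t) =
        (2 * gen μ ν t - (gen μ μ t + gen ν ν t)) / t := by ring
    rw [e]
    apply div_nonpos_of_nonpos_of_nonneg _ ht'.le
    linarith
  have i13 : IntegrableOn (fun t : ℝ => (Real.exp (-t) - gen μ μ t) / t +
      (Real.exp (-t) - gen ν ν t) / t) (Set.Ioi 0) := i1.add i3
  rw [integral_sub i13 (i2.const_mul 2), integral_add i1 i3, integral_const_mul,
    e1, e2, e3] at key
  linarith

end SzU
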