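import Mathlib

/-!
A radial integral: with `τ = (‖z‖/R)^(-1/m)`, `R' = R r^(-m)`,
`∫_{‖z‖ > R'} log (‖z‖/R') / (π m ‖z‖^2) τ^2/(1-τ^2)^2 = - (m/2) log (1-r^2)`
(polar coordinates: `integral_fun_norm_addHaar`, `integrable_fun_norm_addHaar`).
-/

open MeasureTheory

namespace SzU

/-- the radial function -/
noncomputable def radf (m : ℕ) (R R' s : ℝ) : ℝ :=
  if R' < s then Real.log (s / R') * (1 / (Real.pi * m * s ^ 2) *
    ((s / R) ^ (-(2 / (m : ℝ))) / (1 - (s / R) ^ (-(2 / (m : ℝ)))) ^ 2)) else 0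

private noncomputable def radX (μ R s : ℝ) : ℝ := (s / R) ^ (-μ)

private noncomputable def radF (μ R R' s : ℝ) : ℝ :=
  -(Real.log (s / R') * (radX μ R s / (1 - radX μ R s))) + μ⁻¹ * Real.log (1 - radX μ R s)

private noncomputable def radG (μ R R' s : ℝ) : ℝ :=
  μ * (Real.log (s / R') * (radX μ R s / (s * (1 - radX μ R s) ^ 2)))

private theorem radX_deriv (μ R s : ℝ) (hR : 0 < R) (hs : 0 < s) :
    HasDerivAt (radX μ R) (-μ * radX μ R s / s) s := by
  unfold radX
  have h1 : HasDerivAt (fun s : ℝ => s / R) (1 / R) s := (hasDerivAt_id s).div_const R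
  have h2 := h1.rpow_const (p := -μ) (Or.inl (div_pos hs hR).ne')
  have h3 : 1 / R * -μ * (s / R) ^ (-μ - 1) = -μ * (s / R) ^ (-μ) / s := by
    rw [Real.rpow_sub_one (div_pos hs hR).ne']
    field_simp
  rw [h3] at h2
  exact h2

private theorem radF_deriv (μ R R' s : ℝ) (hμ : 0 < μ) (hR : 0 < R) (hR' : 0 < R') (hs : 0 < s)
    (hX : radX μ R s < 1) : HasDerivAt (radF μ R R') (radG μ R R' s) s := by
  have h1 := radX_deriv μ R s hR hs
  have h2 : HasDerivAt (fun s => 1 - radX μ R s) (-(-μ * radX μ R s / s)) s := by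
    simpa using h1.const_sub 1
  have hne : 1 - radX μ R s ≠ 0 := by linarith
  have h3 : HasDerivAt (fun s => radX μ R s / (1 - radX μ R s)) _ s := h1.div h2 hne
  have h4 : HasDerivAt (fun s => Real.log (s / R')) (1 / R' / (s / R')) s :=
    ((hasDerivAt_id s).div_const R').log (div_pos hs hR').ne'
  have h5 : HasDerivAt (fun s => Real.log (1 - radX μ R s)) _ s := h2.log hne
  have h6 := ((h4.mul h3).neg).add (h5.const_mul μ⁻¹)
  unfold radF
  refine h6.congr_deriv ?_
  unfold radG
  have hs' : s ≠ 0 := hs.ne'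
  have hR'' : R' ≠ 0 := hR'.ne'
  have hμ' : μ ≠ 0 := hμ.ne'
  field_simp
  ring

private theorem radF_tendsto (μ R R' : ℝ) (hμ : 0 < μ) (hR : 0 < R) (hR' : 0 < R') :
    Filter.Tendsto (radF μ R R') Filter.atTop (nhds 0) := by
  have hd : Filter.Tendsto (fun s : ℝ => s / R) Filter.atTop Filter.atTop :=
    Filter.tendsto_id.atTop_div_const hR
  have hX : Filter.Tendsto (radX μ R) Filter.atTop (nhds 0) :=
    (tendsto_rpow_neg_atTop hμ).comp hd
  have hlX : Filter.Tendsto (fun s : ℝ => Real.log (s / R) * radX μ R s) Filter.atTop (nhds 0) := by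
    have h1 := (isLittleO_log_rpow_atTop hμ).tendsto_div_nhds_zero.comp hd
    refine h1.congr' ?_
    filter_upwards [Filter.eventually_gt_atTop 0] with s hs
    simp only [Function.comp, radX]
    rw [Real.rpow_neg (div_pos hs hR).le, div_eq_mul_inv]
  have hlX' : Filter.Tendsto (fun s : ℝ => Real.log (s / R') * radX μ R s) Filter.atTop
      (nhds 0) := by
    have h1 := hlX.add (hX.const_mul (Real.log (R / R')))
    rw [mul_zero, add_zero] at h1
    refine h1.congr' ?_
    filter_upwards [Filter.eventually_gt_atTop 0] with s hs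
    have h2 : Real.log (s / R') = Real.log (s / R) + Real.log (R / R') := by
      rw [← Real.log_mul (div_pos hs hR).ne' (div_pos hR hR').ne']
      congr 1
      field_simp
    rw [h2]
    ring
  have h1X : Filter.Tendsto (fun s => 1 - radX μ R s) Filter.atTop (nhds 1) := by
    simpa using hX.const_sub 1
  have hA := hlX'.div h1X one_ne_zero
  have hB : Filter.Tendsto (fun s => Real.log (1 - radX μ R s)) Filter.atTop (nhds (Real.log 1)) :=
    h1X.log one_ne_zero
  have hC := (hA.neg).add (hB.const_mul μ⁻¹)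
  rw [Real.log_one, mul_zero, zero_div, neg_zero, add_zero] at hC
  refine hC.congr fun s => ?_
  simp only [Pi.div_apply, radF]
  ring

private theorem radX_lt (μ R R' s r : ℝ) (hμ : 0 < μ) (hR : 0 < R) (hr0 : 0 < r)
    (hr1 : r < 1) (hR' : R' = R * r ^ (-(2 / μ))) (hs : R' ≤ s) : radX μ R s ≤ r ^ 2 := by
  unfold radX
  have h1 : r ^ (-(2 / μ)) ≤ s / R := by
    rw [le_div_iff₀ hR]
    rw [hR'] at hs
    linarith
  have h2 : (0 : ℝ) < r ^ (-(2 / μ)) := Real.rpow_pos_of_pos hr0 _
  have h3 := Real.rpow_le_rpow_of_nonpos h2 h1 (show -μ ≤ 0 by linarith)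
  refine h3.trans (le_of_eq ?_)
  rw [← Real.rpow_mul hr0.le]
  have h4 : -(2 / μ) * -μ = (2 : ℕ) := by
    push_cast
    field_simp
  rw [h4, Real.rpow_natCast]

theorem rad (m : ℕ) (hm : 1 ≤ m) (R r : ℝ) (hR : 0 < R) (hr0 : 0 < r) (hr1 : r < 1) :
    Integrable (fun z : ℂ => radf m R (R * r ^ (-(m : ℝ))) ‖z‖) ∧
      ∫ z : ℂ, radf m R (R * r ^ (-(m : ℝ))) ‖z‖ = -(m / 2) * Real.log (1 - r ^ 2) := by
  have hm0 : (0 : ℝ) < m := by exact_mod_cast (by omega : 0 < m)
  set R' : ℝ := R * r ^ (-(m : ℝ)) with hR'def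
  set μ : ℝ := 2 / (m : ℝ) with hμdef
  have hμ : 0 < μ := by positivity
  have hR' : 0 < R' := mul_pos hR (Real.rpow_pos_of_pos hr0 _)
  have h2μ : 2 / μ = m := by
    rw [hμdef]
    field_simp
  have hR'2 : R' = R * r ^ (-(2 / μ)) := by rw [h2μ]
  have hr2 : r ^ 2 < 1 := by nlinarith
  have hX : ∀ s, R' ≤ s → radX μ R s < 1 := fun s hs =>
    (radX_lt μ R R' s r hμ hR hr0 hr1 hR'2 hs).trans_lt hr2
  have hXpos : ∀ s, R' ≤ s → 0 < radX μ R s := fun s hs =>
    Real.rpow_pos_of_pos (div_pos (hR'.trans_le hs) hR) _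
  have hderiv : ∀ s ∈ Set.Ici R', HasDerivAt (radF μ R R') (radG μ R R' s) s := fun s hs =>
    radF_deriv μ R R' s hμ hR hR' (hR'.trans_le hs) (hX s hs)
  have hpos : ∀ s ∈ Set.Ioi R', 0 ≤ radG μ R R' s := by
    intro s hs
    have hs' : R' < s := hs
    have hs0 : 0 < s := hR'.trans hs'
    have hl : 0 ≤ Real.log (s / R') := by
      apply Real.log_nonneg
      rw [le_div_iff₀ hR']
      linarith
    have h1 := hXpos s hs'.le
    unfold radG
    positivity
  have hlim := radF_tendsto μ R R' hμ hR hR'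
  have hint := integrableOn_Ioi_deriv_of_nonneg' hderiv hpos hlim
  have hval := integral_Ioi_of_hasDerivAt_of_nonneg' hderiv hpos hlim
  have hFR' : radF μ R R' R' = m / 2 * Real.log (1 - r ^ 2) := by
    have hXR : radX μ R R' = r ^ 2 := by
      unfold radX
      have e1 : R' / R = r ^ (-(2 / μ)) := by
        rw [hR'2]
        field_simp
      rw [e1, ← Real.rpow_mul hr0.le]
      have h4 : -(2 / μ) * -μ = (2 : ℕ) := by
        push_cast
        field_simp
      rw [h4, Real.rpow_natCast]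
    unfold radF
    rw [hXR, div_self hR'.ne', Real.log_one, hμdef]
    field_simp
    ring
  rw [hFR'] at hval
  have hinter : Set.Ioi (0 : ℝ) ∩ Set.Ioi R' = Set.Ioi R' := by
    ext y
    simp only [Set.mem_inter_iff, Set.mem_Ioi]
    exact ⟨fun h => h.2, fun h => ⟨hR'.trans h, h⟩⟩
  have hfun : (fun y : ℝ => y ^ (Module.finrank ℝ ℂ - 1) • radf m R R' y) =
      (Set.Ioi R').indicator (fun y => 1 / (2 * Real.pi) * radG μ R R' y) := by
    funext y
    rw [Complex.finrank_real_complex]
    by_cases h : R' < y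
    · rw [Set.indicator_of_mem (show y ∈ Set.Ioi R' from h)]
      have hy : 0 < y := hR'.trans h
      have hXy : 1 - radX μ R y ≠ 0 := by
        have := hX y h.le
        linarith
      have hpi := Real.pi_pos
      unfold radf radG
      rw [if_pos h, ← hμdef]
      have e : (y / R) ^ (-μ) = radX μ R y := rfl
      rw [e]
      simp only [smul_eq_mul]
      have hμ2 : μ = 2 / (m : ℝ) := hμdef
      generalize radX μ R y = X at hXy ⊢
      rw [hμ2]
      field_simp
      norm_num
    · rw [Set.indicator_of_notMem (show y ∉ Set.Ioi R' from h)]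
      unfold radf
      rw [if_neg h, smul_zero]
  constructor
  · rw [integrable_fun_norm_addHaar volume, hfun, integrableOn_indicator_iff measurableSet_Ioi,
      Set.inter_comm, hinter]
    exact hint.const_mul _
  · rw [integral_fun_norm_addHaar volume, hfun, setIntegral_indicator measurableSet_Ioi, hinter,
      integral_const_mul, Complex.finrank_real_complex, hval]
    have hb : (volume : Measure ℂ).real (Metric.ball 0 1) = Real.pi := by
      rw [Measure.real, Complex.volume_ball]
      simp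
    rw [hb]
    have hpi := Real.pi_pos
    simp only [smul_eq_mul, nsmul_eq_mul]
    push_cast
    field_simp
    ring

end SzU
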