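import Pool.Agent.SzU.Circ
import Pool.Agent.SzU.Rad
import Pool.Agent.SzU.Berg
import Pool.Agent.SzNF.EnInt
import Pool.Agent.SzNF.Shift

/-!
The energy of the image of the canonical measure, with a universal constant.
-/

open Polynomial MeasureTheory

namespace SzU

open SzNF

/-- the image of the canonical measure -/
noncomputable def nu (m n : ℕ) (F : ℂ[X]) (e : (j : ℕ) → Fin (n * j / m) → ℂ[X]) : Measure ℂ :=
  volume.withDensity fun z => ENNReal.ofReal (rho m n F e z)

section

variable (m n : ℕ) (hm : 2 ≤ m) (F : ℂ[X]) (hF : F.Monic) (hs : F.Separable)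
    (hn : F.natDegree = n) (hn1 : 1 ≤ n) (hmn : m.Coprime n) (hg : 1 ≤ genus m n)
    (e : (j : ℕ) → Fin (n * j / m) → ℂ[X]) (he : IsONB m n F e)

theorem meas_of : Measurable fun z => ENNReal.ofReal (rho m n F e z) :=
  (measurable_rho m n F e).ennreal_ofReal

theorem toReal_of (z : ℂ) : (ENNReal.ofReal (rho m n F e z)).toReal = rho m n F e z :=
  ENNReal.toReal_ofReal (rho_nonneg m n F e z)

theorem integrable_nu (u : ℂ → ℝ) :
    Integrable u (nu m n F e) ↔ Integrable (fun z => u z * rho m n F e z) := by
  unfold nu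
  rw [integrable_withDensity_iff (meas_of m n F e)
    (Filter.Eventually.of_forall fun _ => ENNReal.ofReal_lt_top)]
  simp only [toReal_of]

theorem integral_nu (u : ℂ → ℝ) :
    ∫ z, u z ∂(nu m n F e) = ∫ z, u z * rho m n F e z := by
  unfold nu
  rw [integral_withDensity_eq_integral_toReal_smul (meas_of m n F e)
    (Filter.Eventually.of_forall fun _ => ENNReal.ofReal_lt_top)]
  simp only [toReal_of, smul_eq_mul]
  exact integral_congr_ae (Filter.Eventually.of_forall fun z => mul_comm _ _)

include hm hmn hg he in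
theorem prob_nu : IsProbabilityMeasure (nu m n F e) := by
  obtain ⟨hint, hmass⟩ := rho_mass m n hm F hmn hg e he
  refine ⟨?_⟩
  unfold nu
  rw [withDensity_apply _ MeasurableSet.univ, Measure.restrict_univ,
    ← ofReal_integral_eq_lintegral_ofReal hint
      (Filter.Eventually.of_forall fun z => rho_nonneg m n F e z), hmass, ENNReal.ofReal_one]

theorem null_nu : NullSingletonClass (nu m n F e) := by
  refine ⟨fun x => ?_⟩
  exact withDensity_absolutelyContinuous _ _ (measure_singleton x)

include hm hF hs hn hn1 hmn hg he in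
theorem prod_int : Integrable (fun p : ℂ × ℂ => Real.log ‖p.1 - p.2‖)
    ((nu m n F e).prod (nu m n F e)) := by
  have hp := prob_nu m n hm F hmn hg e he
  obtain ⟨G, hG0, hG1, hG2, -⟩ := en_abs m n hm F hF hs hn hn1 hmn e he
  have hmeas : Measurable fun p : ℂ × ℂ => Real.log ‖p.1 - p.2‖ :=
    Real.measurable_log.comp (continuous_fst.sub continuous_snd).norm.measurable
  rw [integrable_prod_iff hmeas.aestronglyMeasurable]
  have h1 : ∀ x : ℂ, Integrable (fun s : ℂ => Real.log ‖x - s‖) (nu m n F e) := fun x => by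
    rw [integrable_nu]
    exact en_inner m n hm F hF hs hn hn1 hmn e he x
  refine ⟨Filter.Eventually.of_forall h1, ?_⟩
  have h2 : Integrable G (nu m n F e) := by
    rw [integrable_nu]
    exact hG1
  refine h2.mono' ?_ (Filter.Eventually.of_forall fun x => ?_)
  · exact (hmeas.norm.stronglyMeasurable.integral_prod_right (ν := nu m n F e)).aestronglyMeasurable
  · rw [Real.norm_of_nonneg (integral_nonneg fun _ => norm_nonneg _)]
    simp only
    rw [integral_nu]
    refine le_trans (le_of_eq ?_) (hG2 x)
    refine integral_congr_ae (Filter.Eventually.of_forall fun s => ?_)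
    simp only
    rw [norm_mul, Real.norm_of_nonneg (rho_nonneg m n F e s)]

include hm hF hs hn hn1 hmn hg he in
theorem energy_eq : energy m n F e =
    ∫ p : ℂ × ℂ, Real.log ‖p.1 - p.2‖ ∂((nu m n F e).prod (nu m n F e)) := by
  have hp := prob_nu m n hm F hmn hg e he
  rw [integral_prod _ (prod_int m n hm F hF hs hn hn1 hmn hg e he)]
  simp only [integral_nu]
  rfl

include hm hF hs hn hn1 hmn hg he in
/-- The energy of the image of the canonical measure when the roots are in the disc of radius `R`,
centre `0`. -/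
theorem energy_berg (R : ℝ) (hR : 0 < R) (hroots : ∀ α ∈ F.roots, ‖α‖ ≤ R) (r : ℝ) (hr0 : 0 < r)
    (hr1 : r < 1) :
    energy m n F e ≤ Real.log R - m * Real.log r - m / genus m n * Real.log (1 - r ^ 2) := by
  have hm0 : (0 : ℝ) < m := by exact_mod_cast (by omega : 0 < m)
  have hg0 : (0 : ℝ) < genus m n := by exact_mod_cast hg
  have hp := prob_nu m n hm F hmn hg e he
  have ha := null_nu m n F e
  obtain ⟨G, hG0, hG1, hG2, hlm⟩ := en_abs m n hm F hF hs hn hn1 hmn e he
  set R' : ℝ := R * r ^ (-(m : ℝ)) with hR'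
  have hrm : 1 < r ^ (-(m : ℝ)) := by
    rw [Real.rpow_neg hr0.le, one_lt_inv₀ (by positivity)]
    exact Real.rpow_lt_one hr0.le hr1 hm0
  have hRR : R < R' := by
    rw [hR']
    nlinarith
  have hR'0 : 0 < R' := hR.trans hRR
  obtain ⟨hri, hrv⟩ := rad m (by omega) R r hR hr0 hr1
  rw [← hR'] at hri hrv
  have h1 := energy_le_circle (nu m n F e) (prod_int m n hm F hF hs hn hn1 hmn hg e he)
    ((integrable_nu m n F e _).2 hlm) R' hR'0
  rw [← energy_eq m n hm F hF hs hn hn1 hmn hg e he, integral_nu] at h1
  have hpt : ∀ z : ℂ, max 0 (Real.log (‖z‖ / R')) * rho m n F e z ≤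
      1 / genus m n * radf m R R' ‖z‖ := by
    intro z
    unfold radf
    split_ifs with h
    · have h2 : 1 < ‖z‖ / R' := by rwa [one_lt_div hR'0]
      have h3 : 0 ≤ Real.log (‖z‖ / R') := Real.log_nonneg h2.le
      rw [max_eq_right h3]
      have h4 := rho_berg m n hm F hF hn hmn hg e he R hR hroots z (hRR.trans h)
      calc Real.log (‖z‖ / R') * rho m n F e z ≤ Real.log (‖z‖ / R') * _ :=
            mul_le_mul_of_nonneg_left h4 h3
        _ = _ := by ring
    · have h2 : ‖z‖ ≤ R' := not_lt.1 h
      have h3 : Real.log (‖z‖ / R') ≤ 0 := by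
        refine Real.log_nonpos (by positivity) ?_
        rwa [div_le_one hR'0]
      rw [max_eq_left h3]
      simp
  have hmx : ∀ z : ℂ, 0 ≤ max 0 (Real.log (‖z‖ / R')) * rho m n F e z := fun z =>
    mul_nonneg (le_max_left _ _) (rho_nonneg m n F e z)
  have hmxm : Measurable fun z : ℂ => max 0 (Real.log (‖z‖ / R')) * rho m n F e z :=
    (measurable_const.max (Real.measurable_log.comp (measurable_norm.div_const R'))).mul
      (measurable_rho m n F e)
  have hmi : Integrable fun z : ℂ => max 0 (Real.log (‖z‖ / R')) * rho m n F e z := by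
    refine (hri.const_mul (1 / genus m n : ℝ)).mono' hmxm.aestronglyMeasurable
      (Filter.Eventually.of_forall fun z => ?_)
    rw [Real.norm_of_nonneg (hmx z)]
    exact hpt z
  have h5 : ∫ z : ℂ, max 0 (Real.log (‖z‖ / R')) * rho m n F e z ≤
      1 / genus m n * (-(m / 2) * Real.log (1 - r ^ 2)) := by
    rw [← hrv, ← integral_const_mul]
    exact integral_mono hmi (hri.const_mul _) hpt
  have h6 : Real.log R' = Real.log R - m * Real.log r := by
    rw [hR', Real.log_mul hR.ne' (by positivity), Real.log_rpow hr0]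
    ring
  rw [h6] at h1
  have h7 : 2 * (1 / genus m n * (-(m / 2) * Real.log (1 - r ^ 2))) =
      -(m / genus m n * Real.log (1 - r ^ 2)) := by
    ring
  linarith

include hm hF hs hn hn1 hmn hg he in
/-- The energy of the image of the canonical measure: universal bound. -/
theorem energy_univ (R : ℝ) (hR : 0 < R) (b : ℂ) (hroots : ∀ α ∈ F.roots, ‖α - b‖ ≤ R) :
    energy m n F e ≤ Real.log R + m * (1 / 2 * Real.log (1 + 1 / genus m n) +
      1 / genus m n * Real.log (1 + genus m n)) := by
  have hg0 : (0 : ℝ) < genus m n := by exact_mod_cast hg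
  set g : ℝ := (genus m n : ℝ) with hgdef
  set r : ℝ := Real.sqrt (g / (g + 1)) with hr
  have hq0 : 0 < g / (g + 1) := by positivity
  have hq1 : g / (g + 1) < 1 := by
    rw [div_lt_one (by positivity)]
    linarith
  have hr0 : 0 < r := Real.sqrt_pos.2 hq0
  have hr2 : r ^ 2 = g / (g + 1) := Real.sq_sqrt hq0.le
  have hr1 : r < 1 := by
    rw [hr, Real.sqrt_lt' one_pos]
    simpa using hq1
  have h := energy_berg m n hm (taylor b F) (monic_shift F hF b) (separable_shift F hs b)
    (by rw [natDegree_taylor, hn]) hn1 hmn hg _ (isONB_shift m n F e he b) R hR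
    (fun α hα => roots_shift F b α R hF hroots hα) r hr0 hr1
  rw [energy_shift] at h
  refine h.trans (le_of_eq ?_)
  have h1 : Real.log r = -(1 / 2 * Real.log (1 + 1 / g)) := by
    have h2 : Real.log (r ^ 2) = 2 * Real.log r := by
      rw [Real.log_pow]; norm_num
    have h3 : Real.log (g / (g + 1)) = -Real.log (1 + 1 / g) := by
      rw [← Real.log_inv]
      congr 1
      field_simp
    rw [hr2, h3] at h2
    linarith
  have h4 : Real.log (1 - r ^ 2) = -Real.log (1 + g) := by
    rw [hr2, ← Real.log_inv]
    congr 1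
    field_simp
    ring
  rw [h1, h4]
  ring

end

end SzU
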