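import Pool.Agent.SzU.Energy
import Pool.Agent.SzNF.Main

/-!
The height of the point at infinity is at most `1/m` times the height of the differences of the
branch points plus a constant which depends only on the genus (and is less than `0.76`).
-/

open Polynomial MeasureTheory

namespace SzU

open SzNF

variable (K : Type*) [Field K] [NumberField K]

theorem height_le (m : ℕ) (hm : 2 ≤ m) (f : K[X]) (hf : f.Monic) (hs : f.Separable)
    (hn : 2 ≤ f.natDegree) (hmn : m.Coprime f.natDegree)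
    (e : (K →+* ℂ) → (j : ℕ) → Fin (f.natDegree * j / m) → ℂ[X]) (Q : ℝ)
    (hQ : ∀ σ : K →+* ℂ, energy m f.natDegree (f.map σ) (e σ) ≤
      Real.log (spread (f.map σ)) + m * Q) :
    height K m f e ≤ ((branchHeight K f / m + Q : ℝ) : EReal) := by
  have hd0 : (0 : ℝ) < Module.finrank ℚ K := by
    exact_mod_cast Module.finrank_pos
  have hm0 : (0 : ℝ) < m := by exact_mod_cast (by omega : 0 < m)
  have harch : ∑ σ : K →+* ℂ, energy m f.natDegree (f.map σ) (e σ) ≤
      ∑ σ : K →+* ℂ, Real.log (spread (f.map σ)) + (Module.finrank ℚ K : ℝ) * (m * Q) := by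
    have hcard : (Module.finrank ℚ K : ℝ) = (Finset.univ : Finset (K →+* ℂ)).card := by
      rw [Finset.card_univ, NumberField.Embeddings.card K ℂ]
    rw [hcard, ← nsmul_eq_mul, ← Finset.sum_const, ← Finset.sum_add_distrib]
    exact Finset.sum_le_sum fun σ _ => hQ σ
  unfold height
  refine Filter.limsup_le_of_le (h := ?_)
  filter_upwards [Filter.eventually_ge_atTop (fin_support K f hf hs hn).toFinset] with S hS
  have hfin := finPart_ge K m (by omega) f hf hs hn hmn S hS
  unfold branchHeight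
  set T : ℝ := ∑ᶠ p : Nat.Primes, haveI : Fact (p : ℕ).Prime := ⟨p.2⟩
      ∑ τ : K →+* ℂ_[(p : ℕ)], Real.log (spread (f.map τ)) with hT
  set A : ℝ := ∑ σ : K →+* ℂ, energy m f.natDegree (f.map σ) (e σ) with hA
  set L : ℝ := ∑ σ : K →+* ℂ, Real.log (spread (f.map σ)) with hL
  have h1 : (((1 / (m : ℝ)) * A : ℝ) : EReal) - finPart K m f S ≤
      (((1 / (m : ℝ)) * (A + T) : ℝ) : EReal) := by
    have h2 : (((1 / (m : ℝ)) * A : ℝ) : EReal) - finPart K m f S ≤
        (((1 / (m : ℝ)) * A : ℝ) : EReal) - ((-(1 / (m : ℝ)) * T : ℝ) : EReal) :=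
      EReal.sub_le_sub le_rfl hfin
    refine h2.trans (le_of_eq ?_)
    rw [← EReal.coe_sub]
    congr 1
    ring
  have h3 : (0 : EReal) ≤ ((1 / (Module.finrank ℚ K : ℝ) : ℝ) : EReal) := by
    exact_mod_cast (by positivity : (0 : ℝ) ≤ 1 / (Module.finrank ℚ K : ℝ))
  refine (mul_le_mul_of_nonneg_left h1 h3).trans ?_
  rw [← EReal.coe_mul]
  refine EReal.coe_le_coe_iff.2 ?_
  have h4 : (1 / (Module.finrank ℚ K : ℝ)) * (1 / (m : ℝ) * (A + T)) ≤
      (1 / (Module.finrank ℚ K : ℝ)) * (1 / (m : ℝ) *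
        (L + Module.finrank ℚ K * (m * Q) + T)) := by
    have h5 : A + T ≤ L + Module.finrank ℚ K * (m * Q) + T := by linarith
    exact mul_le_mul_of_nonneg_left (mul_le_mul_of_nonneg_left h5 (by positivity)) (by positivity)
  refine h4.trans (le_of_eq ?_)
  field_simp
  ring

theorem main (m : ℕ) (f : K[X]) (hf : f.Monic) (hs : f.Separable)
    (hmn : m.Coprime f.natDegree) (g : ℕ) (hgen : genus m f.natDegree = g) (hg : 2 ≤ g) :
    (∀ σ : K →+* ℂ, ∃ e, IsONB m f.natDegree (f.map σ) e) ∧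
    ∀ e : (K →+* ℂ) → (j : ℕ) → Fin (f.natDegree * j / m) → ℂ[X],
      (∀ σ, IsONB m f.natDegree (f.map σ) (e σ)) →
      height K m f e ≤ ((branchHeight K f / m + (Real.log (1 + 1 / g) / 2 +
        Real.log (1 + g) / g) : ℝ) : EReal) := by
  obtain ⟨hm, hn⟩ := genus_bounds m f.natDegree (by omega)
  refine ⟨fun σ => exists_onb m f.natDegree hm (f.map σ) (hf.map σ) hs.map (hf.natDegree_map σ)
    hmn, fun e he => ?_⟩
  refine height_le K m hm f hf hs hn hmn e _ fun σ => ?_
  have hF : (f.map σ).Monic := hf.map σ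
  have hs' : (f.map σ).Separable := hs.map
  have hd : (f.map σ).natDegree = f.natDegree := hf.natDegree_map σ
  obtain ⟨h1, ⟨a, b, ha, hb, hab⟩, h3⟩ := spread_spec (f.map σ) hF hs' (by rw [hd]; exact hn)
  have h := energy_univ m f.natDegree hm (f.map σ) hF hs' hd (by omega) hmn (by omega) (e σ)
    (he σ) (spread (f.map σ)) h1 b (fun α hα => h3 α b (mem_roots'.1 hα).2 hb)
  rw [hgen] at h
  refine h.trans (le_of_eq ?_)
  ring

end SzU
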